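import Pool.Agent.Helper33.MC.GLoss
import Pool.Agent.Helper6.MC.LK
import Pool.Agent.Helper92.MC.GCnt

/-!
MP_4042d8_co, section D, part II, row G_C5N1: a good `M''`-slot (an `M`-operation at it and a
`U4`-operation).
-/

set_option autoImplicit false
set_option linter.unusedSectionVars false
set_option linter.unusedSimpArgs false
set_option linter.unusedVariables false

namespace Pool.Agent.Helper81.MC.G5

open Pool.Agent.Helper27.MC hiding Fr T1 ter
open Pool.Agent.Helper51.MC Pool.Agent.Helper88.MC Pool.Agent.Helper64.MC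
open Pool.Agent.Helper33.MC
open Pool.Agent.Helper91.MC (sv_ex av_ex sv_Fr sv_T1 sv_Dd sv_swap sv_rm sv_tS sv_tSm tA_or_tQ
  tB_or_tS tA_not_tQ mem_Fr mem_T1)
open Pool.Agent.Helper79.MC (Sqg)
open Pool.Agent.Helper91.MC.GK (Khb)
open Pool.Agent.Helper6.MC (Brn gb_iff)

variable {V : Type} [Fintype V] [DecidableEq V] {G : SimpleGraph V} [DecidableRel G.Adj]
  {c : V → Bool} {j : ℕ} {L : V → V → Prop} {H H' : Finset V}

/-! ### counting -/

/-- loss bounds from explicit lists, with the branches in the form `GB` -/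
theorem loss_of' (F : FxG G c j L) {P : Finset (V × V)} {LQ LV : Finset V} {m n : ℕ}
    (hP : ∀ f x, GSG G c L H f x → ¬ GSG G c L H' f x → (f, x) ∈ P)
    (hQ : ∀ t, GB G c H t → ¬ GB G c H' t → (∃ u v a b t' q q' k k',
      Khb G c u v a b t t' q q' k k' ∧ (u, a) ∈ P) ∨ t ∈ LQ)
    (hV : ∀ f, Live G c H f → ¬ Live G c H' f → f ∈ LV)
    (hm : 2 * P.card + LQ.card ≤ m) (hn : LV.card ≤ n) : LossG G c L H H' m n := by
  classical
  constructor
  · refine (Pool.Agent.Helper92.MC.wt_pairs (P := P) (LQ := LQ) (H := H) F ?_ ?_).trans hm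
    · intro p hp
      rw [Finset.mem_sdiff, mem_goodG, mem_goodG] at hp
      exact ⟨hp.1, hP p.1 p.2 hp.1 hp.2⟩
    · intro t ht
      rw [Finset.mem_sdiff, mem_goodB, mem_goodB] at ht
      exact hQ t ht.1 ht.2
  · refine (Finset.card_le_card ?_).trans hn
    intro f hf
    rw [Finset.mem_sdiff] at hf
    unfold live at hf
    simp only [Finset.mem_filter, Finset.mem_univ, true_and] at hf
    exact hV f hf.1 hf.2

/-- a good slot or a good branch outside given lists -/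
theorem ex_out (F : FxG G c j L) {P : Finset (V × V)} {LQ : Finset V}
    (h : 2 * P.card + LQ.card < Lam2 G c L H) :
    (∃ f x, GSG G c L H f x ∧ (f, x) ∉ P) ∨
    ∃ t, GB G c H t ∧ t ∉ LQ ∧ ∀ u v a b t' q q' k k', Khb G c u v a b t t' q q' k k' →
      (u, a) ∉ P := by
  by_contra hc
  push Not at hc
  obtain ⟨h1, h2⟩ := hc
  have h3 := Pool.Agent.Helper92.MC.wt_pairs (A := goodG G c L H) (B := goodB G c H) (P := P)
    (LQ := LQ) (H := H) F (by
      intro p hp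
      rw [mem_goodG] at hp
      exact ⟨hp, h1 p.1 p.2 hp⟩) (by
      intro t ht
      rw [mem_goodB] at ht
      by_cases hq : t ∈ LQ
      · exact Or.inr hq
      · obtain ⟨u, v, a, b, t', q, q', k, k', hK, hP⟩ := h2 t ht hq
        exact Or.inl ⟨u, v, a, b, t', q, q', k, k', hK, hP⟩)
  unfold Lam2 at h
  omega

/-! ### the data of an `M''`-slot -/

variable (G c H) in
/-- an `M''`-slot -/
structure DM (u v a b b' t r q : V) : Prop where
  hu : Sv G c u v a b
  hv : Sv G c v u a b'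
  ha : Av G c a u v t
  ta : tA G c a
  tb : tA G c b
  tb' : tA G c b'
  ht : Sv G c t r a q
  tq : tQ G c q
  lu : LS G c H u a
  lv : Live G c H v
  hru : r ≠ u
  hr : r ∉ H
  dr : ¬ Live G c H r

variable (G c) in
/-- the data of a `U4`-operation -/
structure DV (t r a p p' : V) : Prop where
  ht : Sv G c t r a p
  ta : tA G c a
  tp : tQ G c p
  hp : Rm G c p p'

section facts

variable (F : FxG G c j L)
include F

theorem fr_cf {f : V} (h : f ∈ Fr G c) : c f = false := (frG_tS h).1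

theorem fr_ne {f x : V} (h : f ∈ Fr G c) (hx : c x = true) : f ≠ x := by
  rintro rfl
  rw [(frG_tS h).1] at hx
  cases hx

theorem sv_true {s m a b w : V} (h : Sv G c s m a b) (e : G.Adj s w) (hw : c w = true) :
    w = a ∨ w = b := by
  rcases (h.n3.nb w).1 e with h1 | h1 | h1
  · rw [h1, h.cm] at hw
    cases hw
  · exact Or.inl h1
  · exact Or.inr h1

theorem sv_false {s m a b w : V} (h : Sv G c s m a b) (e : G.Adj s w) (hw : c w = false) :
    w = m := by
  rcases (h.n3.nb w).1 e with h1 | h1 | h1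
  · exact h1
  · rw [h1, h.ca] at hw
    cases hw
  · rw [h1, h.cb] at hw
    cases hw

theorem a_false {x y : V} (hx : tA G c x) (e : G.Adj x y) : c y = false :=
  false_of_A hx.1 hx.2 e

section dm

variable {u v a b b' t r q : V} (D : DM G c H u v a b b' t r q)
include D

theorem dm_t1 : t ∈ T1 G c := (sv_T1 F.mu1 D.ht).2 (Or.inl ⟨D.ta, D.tq⟩)

theorem near_a {f : V} (hf : f ∈ Fr G c) (h : G.Adj a f) : f = u ∨ f = v := by
  rcases (D.ha.n3.nb f).1 h with h1 | h1 | h1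
  · exact Or.inl h1
  · exact Or.inr h1
  · exact (frG_not_T1 hf (h1 ▸ dm_t1 F D)).elim

theorem near_b {f : V} (hf : f ∈ Fr G c) (h : G.Adj b f) : f = u ∨ f = v := by
  rcases fr_nearG F D.hu D.ta D.tb hf (Or.inr h) with h1 | h1 | h1
  · exact Or.inl h1
  · exact Or.inr h1
  · exact near_a F D hf h1.2.2.1

theorem near_b' {f : V} (hf : f ∈ Fr G c) (h : G.Adj b' f) : f = u ∨ f = v := by
  rcases fr_nearG F D.hv D.ta D.tb' hf (Or.inr h) with h1 | h1 | h1
  · exact Or.inr h1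
  · exact Or.inl h1
  · exact near_a F D hf h1.2.2.1

/-- free vertices near the hard set of the `M`-operation -/
theorem near1 {f : V} (hf : f ∈ Fr G c) (h : f ∈ ({u, b, v, a, t, r} : Finset V) ∨
    ∃ w, G.Adj f w ∧ w ∈ ({u, b, v, a, t, r} : Finset V)) : f = u ∨ f = v ∨ f = r := by
  have cf := fr_cf F hf
  rcases h with h | ⟨w, e, h⟩
  · simp only [Finset.mem_insert, Finset.mem_singleton] at h
    rcases h with h | h | h | h | h | h
    · exact Or.inl h
    · exact (fr_ne F hf D.tb.1 h).elim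
    · exact Or.inr (Or.inl h)
    · exact (fr_ne F hf D.ta.1 h).elim
    · exact (frG_not_T1 hf (h ▸ dm_t1 F D)).elim
    · exact Or.inr (Or.inr h)
  · simp only [Finset.mem_insert, Finset.mem_singleton] at h
    rcases h with h | h | h | h | h | h
    · subst h
      exact Or.inr (Or.inl (sv_false F D.hu e.symm cf))
    · subst h
      exact (near_b F D hf e.symm).imp id Or.inl
    · subst h
      exact Or.inl (sv_false F D.hv e.symm cf)
    · subst h
      exact (near_a F D hf e.symm).imp id Or.inl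
    · subst h
      exact Or.inr (Or.inr (sv_false F D.ht e.symm cf))
    · subst h
      have h1 : Rm G c w f := ⟨e.symm, by rw [cf, D.ht.cm]⟩
      have h2 : f = t := rm_uniq (F.mu1 w) h1 (sv_rm D.ht).symm
      exact (frG_not_T1 hf (h2 ▸ dm_t1 F D)).elim

/-- slots near the hard set of the `M`-operation -/
theorem near1A {f y : V} (hf : f ∈ Fr G c) (hy : tA G c y) (hfy : G.Adj f y)
    (h : y ∈ ({u, b, v, a, t, r} : Finset V) ∨
      ∃ w, G.Adj y w ∧ w ∈ ({u, b, v, a, t, r} : Finset V)) : f = u ∨ f = v ∨ G.Adj y r := by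
  have na : y = a → f = u ∨ f = v ∨ G.Adj y r := fun e =>
    (near_a F D hf (e ▸ hfy.symm)).imp id Or.inl
  have nb : y = b → f = u ∨ f = v ∨ G.Adj y r := fun e =>
    (near_b F D hf (e ▸ hfy.symm)).imp id Or.inl
  have nb' : y = b' → f = u ∨ f = v ∨ G.Adj y r := fun e =>
    (near_b' F D hf (e ▸ hfy.symm)).imp id Or.inl
  have ny : ∀ z, c z = false → y = z → False := by
    rintro z hz rfl
    rw [hy.1] at hz
    cases hz
  rcases h with h | ⟨w, e, h⟩
  · simp only [Finset.mem_insert, Finset.mem_singleton] at h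
    rcases h with h | h | h | h | h | h
    · exact (ny u D.hu.cs h).elim
    · exact nb h
    · exact (ny v D.hu.cm h).elim
    · exact na h
    · exact (ny t D.ht.cs h).elim
    · exact (ny r D.ht.cm h).elim
  · simp only [Finset.mem_insert, Finset.mem_singleton] at h
    rcases h with h | h | h | h | h | h
    · subst h
      rcases sv_true F D.hu e.symm hy.1 with h1 | h1
      · exact na h1
      · exact nb h1
    · subst h
      exact (no_AA hy D.tb e).elim
    · subst h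
      rcases sv_true F D.hv e.symm hy.1 with h1 | h1
      · exact na h1
      · exact nb' h1
    · subst h
      exact (no_AA hy D.ta e).elim
    · subst h
      rcases sv_true F D.ht e.symm hy.1 with h1 | h1
      · exact na h1
      · exact (tA_not_tQ hy (h1 ▸ D.tq)).elim
    · subst h
      exact Or.inr (Or.inr e)

/-- vertices of `T1` near the hard set of the `M`-operation -/
theorem near1T {f y t3 : V} (hf : f ∈ Fr G c) (hy : tA G c y) (hfy : G.Adj f y)
    (h3 : t3 ∈ T1 G c) (hy3 : G.Adj y t3) (h : t3 ∈ ({u, b, v, a, t, r} : Finset V) ∨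
      ∃ w, G.Adj t3 w ∧ w ∈ ({u, b, v, a, t, r} : Finset V)) :
    f = u ∨ f = v ∨ t3 = t ∨ t3 = r := by
  have c3 : c t3 = false := (t1G_tS h3).1
  have hfu : u ∈ Fr G c := D.lu.1
  have hfv : v ∈ Fr G c := D.lv.1
  have na : y = a → f = u ∨ f = v ∨ t3 = t ∨ t3 = r := fun e =>
    (near_a F D hf (e ▸ hfy.symm)).imp id Or.inl
  have nb : y = b → f = u ∨ f = v ∨ t3 = t ∨ t3 = r := fun e =>
    (near_b F D hf (e ▸ hfy.symm)).imp id Or.inl
  have n3 : ∀ z, c z = true → t3 = z → False := by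
    rintro z hz rfl
    rw [c3] at hz
    cases hz
  have nfr : ∀ z, z ∈ Fr G c → t3 = z → False := by
    rintro z hz rfl
    exact frG_not_T1 hz h3
  rcases h with h | ⟨w, e, h⟩
  · simp only [Finset.mem_insert, Finset.mem_singleton] at h
    rcases h with h | h | h | h | h | h
    · exact (nfr u hfu h).elim
    · exact (n3 b D.tb.1 h).elim
    · exact (nfr v hfv h).elim
    · exact (n3 a D.ta.1 h).elim
    · exact Or.inr (Or.inr (Or.inl h))
    · exact Or.inr (Or.inr (Or.inr h))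
  · simp only [Finset.mem_insert, Finset.mem_singleton] at h
    rcases h with h | h | h | h | h | h
    · subst h
      exact (nfr v hfv (sv_false F D.hu e.symm c3)).elim
    · subst h
      exact nb (t1_oneA F h3 hy3.symm hy e D.tb)
    · subst h
      exact (nfr u hfu (sv_false F D.hv e.symm c3)).elim
    · subst h
      exact na (t1_oneA F h3 hy3.symm hy e D.ta)
    · subst h
      exact Or.inr (Or.inr (Or.inr (sv_false F D.ht e.symm c3)))
    · subst h
      have h1 : Rm G c w t3 := ⟨e.symm, by rw [c3, D.ht.cm]⟩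
      exact Or.inr (Or.inr (Or.inl (rm_uniq (F.mu1 w) h1 (sv_rm D.ht).symm)))

end dm

section dv

variable {t2 r2 a2 p p' : V} (E : DV G c t2 r2 a2 p p')
include E

theorem dv_t1 : t2 ∈ T1 G c := (sv_T1 F.mu1 E.ht).2 (Or.inl ⟨E.ta, E.tp⟩)

theorem dv_tp' : tQ G c p' := ⟨by rw [E.hp.2]; exact E.tp.1, mu_of_rm F.mu1 E.hp.symm⟩

/-- free vertices near the hard set of the `U4`-operation -/
theorem near2 {f : V} (hf : f ∈ Fr G c) (h : f ∈ ({t2, a2, p, p'} : Finset V) ∨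
    ∃ w, G.Adj f w ∧ w ∈ ({t2, a2, p, p'} : Finset V)) : f = r2 ∨ G.Adj f a2 := by
  have cf := fr_cf F hf
  have tp' := dv_tp' F E
  rcases h with h | ⟨w, e, h⟩
  · simp only [Finset.mem_insert, Finset.mem_singleton] at h
    rcases h with h | h | h | h
    · exact (frG_not_T1 hf (h ▸ dv_t1 F E)).elim
    · exact (fr_ne F hf E.ta.1 h).elim
    · exact (fr_ne F hf E.tp.1 h).elim
    · exact (fr_ne F hf tp'.1 h).elim
  · simp only [Finset.mem_insert, Finset.mem_singleton] at h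
    rcases h with h | h | h | h
    · subst h
      exact Or.inl (sv_false F E.ht e.symm cf)
    · subst h
      exact Or.inr e
    · subst h
      exact (fr_noQ F hf e E.tp).elim
    · subst h
      exact (fr_noQ F hf e tp').elim

/-- slots near the hard set of the `U4`-operation -/
theorem near2A {f y : V} (hf : f ∈ Fr G c) (hy : tA G c y) (hfy : G.Adj f y)
    (h : y ∈ ({t2, a2, p, p'} : Finset V) ∨
      ∃ w, G.Adj y w ∧ w ∈ ({t2, a2, p, p'} : Finset V)) : G.Adj f a2 := by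
  have tp' := dv_tp' F E
  rcases h with h | ⟨w, e, h⟩
  · simp only [Finset.mem_insert, Finset.mem_singleton] at h
    rcases h with h | h | h | h
    · have h1 := hy.1
      rw [h, E.ht.cs] at h1
      cases h1
    · exact h ▸ hfy
    · exact (tA_not_tQ hy (h ▸ E.tp)).elim
    · exact (tA_not_tQ hy (h ▸ tp')).elim
  · have cw : c w = false := a_false F hy e
    simp only [Finset.mem_insert, Finset.mem_singleton] at h
    rcases h with h | h | h | h
    · subst h
      rcases sv_true F E.ht e.symm hy.1 with h1 | h1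
      · exact h1 ▸ hfy
      · exact (tA_not_tQ hy (h1 ▸ E.tp)).elim
    · rw [h, E.ta.1] at cw
      cases cw
    · rw [h, E.tp.1] at cw
      cases cw
    · rw [h, tp'.1] at cw
      cases cw

/-- vertices of `T1` near the hard set of the `U4`-operation -/
theorem near2T {f y t3 : V} (hf : f ∈ Fr G c) (hy : tA G c y) (hfy : G.Adj f y)
    (h3 : t3 ∈ T1 G c) (hy3 : G.Adj y t3) (h : t3 ∈ ({t2, a2, p, p'} : Finset V) ∨
      ∃ w, G.Adj t3 w ∧ w ∈ ({t2, a2, p, p'} : Finset V)) :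
    G.Adj f a2 ∨ t3 = r2 ∨ G.Adj t3 p' := by
  have c3 : c t3 = false := (t1G_tS h3).1
  have tp' := dv_tp' F E
  have na : G.Adj t3 a2 → G.Adj f a2 := fun e =>
    (t1_oneA F h3 hy3.symm hy e E.ta) ▸ hfy
  have eta : G.Adj t2 a2 := (E.ht.n3.nb a2).2 (by tauto)
  have n3 : ∀ z, c z = true → t3 = z → False := by
    rintro z hz rfl
    rw [c3] at hz
    cases hz
  rcases h with h | ⟨w, e, h⟩
  · simp only [Finset.mem_insert, Finset.mem_singleton] at h
    rcases h with h | h | h | h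
    · exact Or.inl (na (h ▸ eta))
    · exact (n3 a2 E.ta.1 h).elim
    · exact (n3 p E.tp.1 h).elim
    · exact (n3 p' tp'.1 h).elim
  · simp only [Finset.mem_insert, Finset.mem_singleton] at h
    rcases h with h | h | h | h
    · subst h
      exact Or.inr (Or.inl (sv_false F E.ht e.symm c3))
    · subst h
      exact Or.inl (na e)
    · subst h
      by_cases h4 : t3 = t2
      · exact Or.inl (na (h4 ▸ eta))
      · have h5 := F.f1 w t3 t2 E.tp (t1G_tS h3) (t1G_tS (dv_t1 F E)) e.symm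
          ((E.ht.n3.nb w).2 (by tauto)).symm h4
        exact Or.inr (Or.inl (rm_uniq (F.mu1 t2) h5.symm (sv_rm E.ht)))
    · subst h
      exact Or.inr (Or.inr e)

end dv

section step

variable {u v a b b' t r q : V} (D : DM G c H u v a b b' t r q)
  {t2 r2 a2 p p' : V} (E : DV G c t2 r2 a2 p p')
include D E

/-- lost slots of the two operations -/
theorem lost {f y : V} (h5 : ¬ Q5s G c L H) (hg : GSG G c L H f y)
    (hn : ¬ GSG G c L ((H ∪ {u, b, v, a, t, r}) ∪ {t2, a2, p, p'}) f y) :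
    f = u ∨ f = v ∨ G.Adj y r ∨ f = r2 ∨ G.Adj f a2 ∨
      ∃ t3, t3 ∈ T1 G c ∧ G.Adj t3 p' ∧ G.Adj y t3 := by
  have hl := hg.1
  have hHH : H ⊆ (H ∪ {u, b, v, a, t, r}) ∪ {t2, a2, p, p'} :=
    Finset.subset_union_left.trans Finset.subset_union_left
  rcases st_GGL V G c j L H _ F hHH f y hg hn with h | h | ⟨t3, r3, hM, hA, h, h'⟩ |
    ⟨g, y', v1, v2, zx, zy, hq, -, h, -⟩
  · by_cases h1 : Clr G (H ∪ {u, b, v, a, t, r}) f
    · rcases near2 F E hl.1 (not_clr' h1 h) with h2 | h2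
      · exact Or.inr (Or.inr (Or.inr (Or.inl h2)))
      · exact Or.inr (Or.inr (Or.inr (Or.inr (Or.inl h2))))
    · rcases near1 F D hl.1 (not_clr' hl.cf h1) with h2 | h2 | h2
      · exact Or.inl h2
      · exact Or.inr (Or.inl h2)
      · exact (D.dr (h2 ▸ hl.lv)).elim
  · by_cases h1 : Clr G (H ∪ {u, b, v, a, t, r}) y
    · exact Or.inr (Or.inr (Or.inr (Or.inr (Or.inl (near2A F E hl.1 hl.ta hl.adj
        (not_clr' h1 h))))))
    · rcases near1A F D hl.1 hl.ta hl.adj (not_clr' hl.cx h1) with h2 | h2 | h2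
      · exact Or.inl h2
      · exact Or.inr (Or.inl h2)
      · exact Or.inr (Or.inr (Or.inl h2))
  · have h3 : t3 ∈ T1 G c := hA.1
    have e3 : G.Adj y t3 := hM.2.1
    have hr3 : Rm G c t3 r3 := hM.2.2.2.2.1
    rw [Finset.mem_union, Finset.mem_union] at h'
    push Not at h'
    obtain ⟨⟨-, k1⟩, k2⟩ := h'
    by_cases h1 : Clr G (H ∪ {u, b, v, a, t, r}) t3
    · rcases near2T F E hl.1 hl.ta hl.adj h3 e3 (not_clr' h1 h) with h2 | h2 | h2
      · exact Or.inr (Or.inr (Or.inr (Or.inr (Or.inl h2))))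
      · exfalso
        apply k2
        have h4 : r3 = t2 := rm_uniq (F.mu1 t3) hr3 (h2 ▸ (sv_rm E.ht).symm)
        rw [h4]
        exact Finset.mem_insert_self _ _
      · exact Or.inr (Or.inr (Or.inr (Or.inr (Or.inr ⟨t3, h3, h2, e3⟩))))
    · rcases near1T F D hl.1 hl.ta hl.adj h3 e3 (not_clr' hA.2 h1) with h2 | h2 | h2 | h2
      · exact Or.inl h2
      · exact Or.inr (Or.inl h2)
      · exfalso
        apply k1
        have h4 : r3 = r := rm_uniq (F.mu1 t3) hr3 (h2 ▸ (sv_rm D.ht))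
        rw [h4]
        simp
      · exfalso
        apply k1
        have h4 : r3 = t := rm_uniq (F.mu1 t3) hr3 (h2 ▸ (sv_rm D.ht).symm)
        rw [h4]
        simp
  · exact (h5 ⟨f, g, y, y', v1, v2, zx, zy, hq, hg, h.mono hHH⟩).elim

/-- the end of all cases -/
theorem fin (hI : Inv G c H) (h5 : ¬ Q5s G c L H) (hc : Clr G (H ∪ {u, b, v, a, t, r}) t2)
    {P : Finset (V × V)} {LQ LV : Finset V}
    (hP : ∀ f y, LS G c H f y → (f = u ∨ f = v ∨ G.Adj y r ∨ f = r2 ∨ G.Adj f a2 ∨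
      ∃ t3, t3 ∈ T1 G c ∧ G.Adj t3 p' ∧ G.Adj y t3) → (f, y) ∈ P)
    (hLQ : ∀ t0 f k, Brn G c H t0 f k → f ≠ u → f ≠ v → G.Adj k r → t0 ∈ LQ)
    (hV : ∀ f, Live G c H f → (f = u ∨ f = v ∨ f = r2 ∨ G.Adj f a2) → f ∈ LV)
    (hm : 2 * P.card + LQ.card ≤ 24) (hn : LV.card ≤ 5) :
    ∃ H1 H', OpM G c H H1 ∧ OpV G c H1 H' ∧ LossG G c L H H' 24 5 := by
  have tp' := dv_tp' F E
  have bv : Bare G c H u v := fun y hy => Or.inl (sv_mateG F D.hv hy)
  have e2p : G.Adj t2 p := (E.ht.n3.nb p).2 (by tauto)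
  have hp' : p' ∉ H ∪ {u, b, v, a, t, r} := by
    intro h
    rw [Finset.mem_union] at h
    rcases h with h | h
    · have h1 := hI p' p tp' E.hp.symm h
      exact hc.2 p e2p (Finset.mem_union_left _ h1)
    · have n3 : ∀ z, c z = false → p' = z → False := by
        rintro z hz rfl
        rw [tp'.1] at hz
        cases hz
      simp only [Finset.mem_insert, Finset.mem_singleton] at h
      rcases h with h | h | h | h | h | h
      · exact n3 u D.hu.cs h
      · exact tA_not_tQ D.tb (h ▸ tp')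
      · exact n3 v D.hu.cm h
      · exact tA_not_tQ D.ta (h ▸ tp')
      · exact n3 t D.ht.cs h
      · exact n3 r D.ht.cm h
  have hH1 : H ⊆ H ∪ {u, b, v, a, t, r} := Finset.subset_union_left
  refine ⟨H ∪ {u, b, v, a, t, r}, (H ∪ {u, b, v, a, t, r}) ∪ {t2, a2, p, p'},
    ⟨u, v, a, b, v, t, r, D.hu, D.ha, D.ta, D.tb, D.lu.cf, D.lu.cx, bv, sv_rm D.ht, D.hru, D.hr,
      rfl⟩, ⟨t2, r2, a2, p, p', E.ht, E.ta, E.tp, E.hp, hc, hp', rfl⟩,
    loss_of' F (P := P) (LQ := LQ) (LV := LV) ?_ ?_ ?_ hm hn⟩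
  · intro f y hg hg'
    exact hP f y hg.1 (lost F D E h5 hg hg')
  · intro t0 hg hg'
    by_cases hb : GB G c (H ∪ {u, b, v, a, t, r}) t0
    · obtain ⟨f, k, hB⟩ := gb_iff.1 hb
      have h1 := Pool.Agent.Helper6.MC.lkV F E.ht E.ta E.tp E.hp hB hg'
      obtain ⟨v1, x1, y1, t1', q1, q1', k1', K, hl, hk⟩ := hB
      left
      refine ⟨f, v1, x1, y1, t1', q1, q1', k, k1', K, hP f x1 ⟨hl.1, hl.2.1, hl.2.2.1,
        hl.2.2.2.1.mono hH1, hl.2.2.2.2.mono hH1⟩ ?_⟩
      rcases h1 with h1 | h1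
      · exact Or.inr (Or.inr (Or.inr (Or.inl h1)))
      · exact Or.inr (Or.inr (Or.inr (Or.inr (Or.inl h1))))
    · obtain ⟨f, k, hB⟩ := gb_iff.1 hg
      have h1 := Pool.Agent.Helper6.MC.lkM F D.hu D.ha D.ta D.tb bv (dm_t1 F D) (sv_rm D.ht) hB hb
      have hB' := hB
      obtain ⟨v1, x1, y1, t1', q1, q1', k1', K, hl, hk⟩ := hB
      by_cases hfu : f = u
      · exact Or.inl ⟨f, v1, x1, y1, t1', q1, q1', k, k1', K, hP f x1 hl (Or.inl hfu)⟩
      by_cases hfv : f = v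
      · exact Or.inl ⟨f, v1, x1, y1, t1', q1, q1', k, k1', K, hP f x1 hl (Or.inr (Or.inl hfv))⟩
      rcases h1 with h1 | h1 | h1 | h1 | h1
      · exact (hfu h1).elim
      · exact (hfv h1).elim
      · exact (D.dr (h1 ▸ hl.lv)).elim
      · exact (fr_noQ F D.lv.1 h1.symm (Pool.Agent.Helper6.MC.khb_tQk F K)).elim
      · exact Or.inr (hLQ t0 f k hB' hfu hfv h1)
  · intro f hf hf'
    apply hV f hf
    have hn' : ¬ Clr G ((H ∪ {u, b, v, a, t, r}) ∪ {t2, a2, p, p'}) f := fun h => hf' ⟨hf.1, h⟩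
    by_cases h1 : Clr G (H ∪ {u, b, v, a, t, r}) f
    · rcases near2 F E hf.1 (not_clr' h1 hn') with h2 | h2
      · exact Or.inr (Or.inr (Or.inl h2))
      · exact Or.inr (Or.inr (Or.inr h2))
    · rcases near1 F D hf.1 (not_clr' hf.2 h1) with h2 | h2 | h2
      · exact Or.inl h2
      · exact Or.inr (Or.inl h2)
      · exact (D.dr (h2 ▸ hf)).elim

end step

/-! ### lists -/

/-- the slots at the `A`-neighbour of a vertex of `T1` -/
theorem two_t (H : Finset V) (t : V) :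
    Cov (fun p : V × V => LS G c H p.1 p.2 ∧ t ∈ T1 G c ∧ G.Adj p.2 t) 2 := by
  by_cases h : ∃ p : V × V, LS G c H p.1 p.2 ∧ t ∈ T1 G c ∧ G.Adj p.2 t
  · obtain ⟨⟨f, y⟩, hl, ht, e⟩ := h
    obtain ⟨n1, n2, ha⟩ := av_ex F.reg hl.ta e
    refine ⟨{(n1, y), (n2, y)}, Finset.card_le_two, ?_⟩
    rintro ⟨f', y'⟩ ⟨hl', -, e'⟩
    have h1 : y = y' := t1_oneA F ht e.symm hl.ta e'.symm hl'.ta
    subst h1
    rcases (ha.n3.nb f').1 hl'.adj.symm with h2 | h2 | h2
    · exact (frG_not_T1 hl'.1 (h2 ▸ ht)).elim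
    · simp [h2]
    · simp [h2]
  · exact (Cov.none (P := fun p : V × V => LS G c H p.1 p.2 ∧ t ∈ T1 G c ∧ G.Adj p.2 t)
      (fun p hp => h ⟨p, hp⟩)).mono (fun _ h => h) (by norm_num)

/-- the slots at the third vertex of `T1` -/
theorem cov3 (H : Finset V) {t2 r2 a2 p p' : V} (E : DV G c t2 r2 a2 p p') :
    Cov (fun s : V × V => LS G c H s.1 s.2 ∧ ∃ t3, t3 ∈ T1 G c ∧ G.Adj t3 p' ∧ G.Adj s.2 t3) 2 := by
  by_cases h : ∃ t3, t3 ∈ T1 G c ∧ G.Adj t3 p'
  · obtain ⟨t3, h3, e3⟩ := h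
    refine (two_t F H t3).mono ?_ le_rfl
    rintro ⟨f, y⟩ ⟨hl, t4, h4, e4, e5⟩
    have h6 : t4 = t3 := F.o1 p p' t2 t4 t3 E.tp E.hp ((E.ht.n3.nb p).2 (by tauto)).symm
      (dv_t1 F E) e4.symm e3.symm h4 h3
    subst h6
    exact ⟨hl, h4, e5⟩
  · refine (Cov.none (P := fun s : V × V => LS G c H s.1 s.2 ∧ ∃ t3, t3 ∈ T1 G c ∧
      G.Adj t3 p' ∧ G.Adj s.2 t3) ?_).mono (fun _ h => h) (by norm_num)
    rintro s ⟨-, t3, h3, e3, -⟩
    exact h ⟨t3, h3, e3⟩

section src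

variable {u v a b b' t r q : V} (D : DM G c H u v a b b' t r q)
include D

/-- no live slot at `r` if `r` is not in `T1` -/
theorem no_r (hr : r ∉ T1 G c) {f y : V} (hl : LS G c H f y) : ¬ G.Adj y r := by
  intro e
  have hS : tS G c r := sv_tSm F.mu1 D.ht
  have hfr : r ∈ Fr G c := (s_of_AG F hS e hl.ta).resolve_right hr
  have hne : f ≠ r := by
    rintro rfl
    exact D.dr hl.lv
  have hrm : ¬ Rm G c f r := by
    intro h
    have h1 : f = t := rm_uniq (F.mu1 r) h.symm (sv_rm D.ht).symm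
    exact frG_not_T1 hl.1 (h1 ▸ dm_t1 F D)
  obtain ⟨m, z, hs, -⟩ := fr_svG F hl.1 hl.adj hl.ta
  obtain ⟨v2, za, zb, hq⟩ := sqg_of F hs hl.1 hfr hne hrm e hl.ta
  have h2 : t = v2 := sv_mateG F hq.h2 (sv_rm D.ht).symm
  refine D.dr (sqg_live F hq hl ?_)
  rw [← h2]
  exact D.lu.cx.2 t ((D.ha.n3.nb t).2 (by tauto))

/-- a good branch as a source -/
theorem k_src {t1 f1 v1 x1 y1 t1' q1 q1' k1 k1' : V}
    (K : Khb G c f1 v1 x1 y1 t1 t1' q1 q1' k1 k1') (hl : LS G c H f1 x1) (hk : Clr G H k1)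
    (hfu : f1 ≠ u) (hfv : f1 ≠ v) :
    DV G c t1 t1' x1 q1 k1 ∧ Clr G (H ∪ {u, b, v, a, t, r}) t1 := by
  have ht1 : t1 ∈ T1 G c := Pool.Agent.Helper6.MC.khb_t1 F K
  have ht1' : t1' ∈ T1 G c := Pool.Agent.Helper6.MC.khb_t1 F K.symm
  have e1 : G.Adj x1 t1 := (K.ha.n3.nb t1).2 (by tauto)
  have e1' : G.Adj x1 t1' := (K.ha.n3.nb t1').2 (by tauto)
  have na : x1 ≠ a := by
    intro e
    rcases near_a F D hl.1 (e ▸ hl.adj.symm) with h | h
    · exact hfu h
    · exact hfv h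
  refine ⟨⟨K.h1, K.ta, Pool.Agent.Helper6.MC.khb_tQ F K, K.q1⟩, ?_⟩
  have hc : Clr G H t1 := by
    refine ⟨hl.cx.2 t1 e1, fun w hw => ?_⟩
    rcases (K.h1.n3.nb w).1 hw with h | h | h
    · exact h ▸ hl.cx.2 t1' e1'
    · exact h ▸ hl.cx.1
    · exact h ▸ hk.2 q1 K.q1.symm.1
  have eta : G.Adj t a := (D.ht.n3.nb a).2 (by tauto)
  by_contra hn
  rcases near1T F D hl.1 hl.ta hl.adj ht1 e1 (not_clr' hc hn) with h | h | h | h
  · exact hfu h
  · exact hfv h
  · exact na (t1_oneA F ht1 e1.symm hl.ta (h ▸ eta) D.ta)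
  · have h1 : t1' = t := rm_uniq (F.mu1 t1) (sv_rm K.h1) (h ▸ (sv_rm D.ht).symm)
    exact na (t1_oneA F ht1' e1'.symm hl.ta (h1 ▸ eta) D.ta)

/-- a good slot as a source -/
theorem m_src (hN : ¬ PN G c H) (h4 : ¬ Q4G G c H) (h5 : ¬ Q5s G c L H) {f y : V}
    (hg : GSG G c L H f y) (hfu : f ≠ u) (hfv : f ≠ v) (hyr : ¬ G.Adj y r) :
    ∃ t2 r2 p p', DV G c t2 r2 y p p' ∧ Clr G (H ∪ {u, b, v, a, t, r}) t2 ∧ ¬ Live G c H r2 := by
  have hl := hg.1
  obtain ⟨t2, r2, hM, hA⟩ : ∃ t2 r2, MSG G c H f y t2 r2 ∧ Avl G c H t2 := by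
    rcases hg.2 with h | ⟨t2, h1, h2, h3, h6⟩ | ⟨g, h1, h2, h3, h6, h7⟩
    · exact (hN ⟨f, y, hg.1, h⟩).elim
    · obtain ⟨r2, hr2⟩ := exists_mate (t1G_tS h3.1).2
      have hne : r2 ≠ f := by
        intro e
        refine hN ⟨f, y, hg.1, fun w hw hwf => ?_⟩
        by_cases hw2 : w = t2
        · subst hw2
          intro z hz
          left
          rw [← e]
          exact rm_uniq (F.mu1 w) hz hr2
        · exact h6 w hw hwf hw2
      exact ⟨t2, r2, ⟨hl, h1, h2, h3.1, hr2, hne, h3.2.2 r2 hr2.1, h6⟩, h3⟩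
    · obtain ⟨m, z, hs, -⟩ := fr_svG F hl.1 hl.adj hl.ta
      obtain ⟨v2, za, zb, hq⟩ := sqg_of F hs hl.1 h6.1 (fun h => h2 h.symm) h3 h1 hl.ta
      exact (h5 ⟨f, g, y, z, m, v2, za, zb, hq, hg, h6⟩).elim
  have e2 : G.Adj y t2 := hM.2.1
  obtain ⟨r2', p, hs, hq⟩ := t1_svG F hA.1 e2.symm hl.ta
  have er : r2 = r2' := sv_mateG F hs hM.2.2.2.2.1
  subst er
  obtain ⟨p', hpp⟩ := exists_mate hq.2
  refine ⟨t2, r2, p, p', ⟨hs, hl.ta, hq, hpp⟩, ?_, fun h => h4 ⟨f, y, t2, r2, hM, h⟩⟩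
  have eta : G.Adj t a := (D.ht.n3.nb a).2 (by tauto)
  by_contra hn
  rcases near1T F D hl.1 hl.ta hl.adj hA.1 e2 (not_clr' hA.2 hn) with h | h | h | h
  · exact hfu h
  · exact hfv h
  · have h1 : y = a := t1_oneA F hA.1 e2.symm hl.ta (h ▸ eta) D.ta
    rcases near_a F D hl.1 (h1 ▸ hl.adj.symm) with h | h
    · exact hfu h
    · exact hfv h
  · exact hyr (h ▸ e2)

end src

theorem card_u (A B D : Finset (V × V)) : (A ∪ B ∪ D).card ≤ A.card + B.card + D.card := by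
  have h1 := Finset.card_union_le (A ∪ B) D
  have h2 := Finset.card_union_le A B
  omega

/-- the case of the theorem, from the data -/
theorem main {u v a b b' t r q : V} (D : DM G c H u v a b b' t r q) (hI : Inv G c H)
    (hN : ¬ PN G c H) (h4 : ¬ Q4G G c H) (h5 : ¬ Q5s G c L H) (hL : 24 ≤ Lam2 G c L H) :
    ∃ H1 H', OpM G c H H1 ∧ OpV G c H1 H' ∧ LossG G c L H H' 24 5 := by
  classical
  obtain ⟨Lu, hu1, hu2⟩ := cov_fstG F H u
  obtain ⟨Lv, hv1, hv2⟩ := cov_fstG F H v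
  have ku : ∀ f y, LS G c H f y → f = u → (f, y) ∈ Lu := fun f y hl e => hu2 (f, y) ⟨hl, e⟩
  have kv : ∀ f y, LS G c H f y → f = v → (f, y) ∈ Lv := fun f y hl e => hv2 (f, y) ⟨hl, e⟩
  -- the final step for a source in a K-slot
  have kfin : ∀ (Lr : Finset (V × V)) (LQ : Finset V), 2 * Lr.card + LQ.card ≤ 5 →
      (∀ f y, LS G c H f y → G.Adj y r → (f, y) ∈ Lr) →
      (∀ t0 f k, Brn G c H t0 f k → f ≠ u → f ≠ v → G.Adj k r → t0 ∈ LQ) →
      ∀ t1 f1 k1, Brn G c H t1 f1 k1 → f1 ≠ u → f1 ≠ v →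
      ∃ H1 H', OpM G c H H1 ∧ OpV G c H1 H' ∧ LossG G c L H H' 24 5 := by
    intro Lr LQ hc1 hr hq t1 f1 k1 hB hfu hfv
    obtain ⟨v1, x1, y1, t1', q1, q1', k1', K, hl, hk⟩ := hB
    obtain ⟨E, hcl⟩ := k_src F D K hl hk hfu hfv
    obtain ⟨L1, h11, h12⟩ := cov_fstG F H f1
    obtain ⟨L3, h31, h32⟩ := cov3 F H E
    have ht1' : t1' ∈ T1 G c := Pool.Agent.Helper6.MC.khb_t1 F K.symm
    have ht1 : t1 ∈ T1 G c := Pool.Agent.Helper6.MC.khb_t1 F K
    have kf : ∀ f, f ∈ Fr G c → G.Adj f x1 → f = f1 := by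
      intro f hf e
      rcases (K.ha.n3.nb f).1 e.symm with h | h | h
      · exact h
      · exact (frG_not_T1 hf (h ▸ ht1)).elim
      · exact (frG_not_T1 hf (h ▸ ht1')).elim
    refine fin F D E hI h5 hcl (P := Lu ∪ Lv ∪ (Lr ∪ L1 ∪ L3)) (LQ := LQ) (LV := {u, v, f1})
      ?_ hq ?_ ?_ ?_
    · intro f y hl0 h
      simp only [Finset.mem_union]
      rcases h with h | h | h | h | h | h
      · exact Or.inl (Or.inl (ku f y hl0 h))
      · exact Or.inl (Or.inr (kv f y hl0 h))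
      · exact Or.inr (Or.inl (Or.inl (hr f y hl0 h)))
      · exact (frG_not_T1 hl0.1 (h ▸ ht1')).elim
      · exact Or.inr (Or.inl (Or.inr (h12 (f, y) ⟨hl0, kf f hl0.1 h⟩)))
      · exact Or.inr (Or.inr (h32 (f, y) ⟨hl0, h⟩))
    · intro f hl0 h
      simp only [Finset.mem_insert, Finset.mem_singleton]
      rcases h with h | h | h | h
      · exact Or.inl h
      · exact Or.inr (Or.inl h)
      · exact (frG_not_T1 hl0.1 (h ▸ ht1')).elim
      · exact Or.inr (Or.inr (kf f hl0.1 h))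
    · have e1 := card_u F Lu Lv (Lr ∪ L1 ∪ L3)
      have e2 := card_u F Lr L1 L3
      omega
    · exact Finset.card_le_three.trans (by norm_num)
  by_cases hB : r ∈ T1 G c ∧ ∃ t1 f1 k1, Brn G c H t1 f1 k1 ∧ f1 ≠ u ∧ f1 ≠ v ∧ G.Adj k1 r
  · obtain ⟨hr, t1, f1, k1, hB, hfu, hfv, hkr⟩ := hB
    obtain ⟨Lr, hr1, hr2⟩ := two_t F H r
    refine kfin Lr {t1} ?_ (fun f y hl e => hr2 (f, y) ⟨hl, hr, e⟩) ?_ t1 f1 k1 hB hfu hfv
    · rw [Finset.card_singleton]
      omega
    · intro t0 f k hB0 _ _ hk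
      have hkk : k = k1 := by
        have q0 : tQ G c k := by
          obtain ⟨v1, x1, y1, t1', q1, q1', k1', K, -, -⟩ := hB0
          exact Pool.Agent.Helper6.MC.khb_tQk F K
        have q1 : tQ G c k1 := by
          obtain ⟨v1, x1, y1, t1', q1, q1', k1', K, -, -⟩ := hB
          exact Pool.Agent.Helper6.MC.khb_tQk F K
        obtain ⟨m, z, hs⟩ := sv_ex F.reg (t1G_tS hr) hk.symm q0.1
        rcases sv_true F hs hkr.symm q1.1 with h | h
        · exact h.symm
        · exfalso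
          rcases (sv_T1 F.mu1 hs).1 hr with h6 | h6
          · exact tA_not_tQ h6.1 q0
          · exact tA_not_tQ h6.2 (h ▸ q1)
      subst hkk
      exact Finset.mem_singleton.2 (Pool.Agent.Helper6.MC.brn_k F hB0 hB)
  -- the lists at `r`
  have key : ∃ (Lr : Finset (V × V)) (LQ : Finset V), 2 * Lr.card + LQ.card ≤ 4 ∧
      (∀ f y, LS G c H f y → G.Adj y r → (f, y) ∈ Lr) ∧
      (∀ t0 f k, Brn G c H t0 f k → f ≠ u → f ≠ v → G.Adj k r → t0 ∈ LQ) := by
    by_cases hr : r ∈ T1 G c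
    · obtain ⟨Lr, hr1, hr2⟩ := two_t F H r
      refine ⟨Lr, ∅, by rw [Finset.card_empty]; omega, fun f y hl e => hr2 (f, y) ⟨hl, hr, e⟩,
        fun t0 f k h1 h2 h3 h6 => (hB ⟨hr, t0, f, k, h1, h2, h3, h6⟩).elim⟩
    · obtain ⟨n1, n2, hn⟩ := Pool.Agent.Helper96.MC.n3_of F.reg (sv_rm D.ht).1.symm
      obtain ⟨LQ, hq1, hq2⟩ := Pool.Agent.Helper6.MC.covB_w F H hn
      refine ⟨∅, LQ, by rw [Finset.card_empty]; omega,
        fun f y hl e => (no_r F D hr hl e).elim, fun t0 f k h1 _ _ h6 => ?_⟩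
      refine hq2 t0 ⟨f, k, h1, h6, ?_⟩
      rintro rfl
      obtain ⟨v1, x1, y1, t1', q1, q1', k1', K, -, -⟩ := h1
      have h7 := (Pool.Agent.Helper6.MC.khb_tQk F K).1
      rw [D.ht.cs] at h7
      cases h7
  obtain ⟨Lr, LQ, hc1, hr, hq⟩ := key
  have e1 := card_u F Lu Lv Lr
  rcases ex_out F (H := H) (L := L) (P := Lu ∪ Lv ∪ Lr) (LQ := LQ) (by omega) with
    ⟨f, y, hg, hout⟩ | ⟨t1, hg, hout, hout'⟩
  · have hl := hg.1
    simp only [Finset.mem_union, not_or] at hout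
    have hfu : f ≠ u := fun e => hout.1.1 (ku f y hl e)
    have hfv : f ≠ v := fun e => hout.1.2 (kv f y hl e)
    have hyr : ¬ G.Adj y r := fun e => hout.2 (hr f y hl e)
    obtain ⟨t2, r2, p, p', E, hcl, hd⟩ := m_src F D hN h4 h5 hg hfu hfv hyr
    obtain ⟨n1, n2, hav⟩ := av_ex F.reg hl.ta ((E.ht.n3.nb y).2 (by tauto)).symm
    have kn : ∀ f0, f0 ∈ Fr G c → G.Adj f0 y → f0 = n1 ∨ f0 = n2 := by
      intro f0 hf e
      rcases (hav.n3.nb f0).1 e.symm with h | h | h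
      · exact (frG_not_T1 hf (h ▸ dv_t1 F E)).elim
      · exact Or.inl h
      · exact Or.inr h
    obtain ⟨L1, h11, h12⟩ := cov_fstG F H n1
    obtain ⟨L2, h21, h22⟩ := cov_fstG F H n2
    obtain ⟨L3, h31, h32⟩ := cov3 F H E
    refine fin F D E hI h5 hcl (P := Lu ∪ Lv ∪ Lr ∪ (L1 ∪ L2 ∪ L3)) (LQ := LQ)
      (LV := {u, v, n1, n2}) ?_ hq ?_ ?_ ?_
    · intro f0 y0 hl0 h
      simp only [Finset.mem_union]
      rcases h with h | h | h | h | h | h
      · exact Or.inl (Or.inl (Or.inl (ku f0 y0 hl0 h)))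
      · exact Or.inl (Or.inl (Or.inr (kv f0 y0 hl0 h)))
      · exact Or.inl (Or.inr (hr f0 y0 hl0 h))
      · exact (hd (h ▸ hl0.lv)).elim
      · rcases kn f0 hl0.1 h with h6 | h6
        · exact Or.inr (Or.inl (Or.inl (h12 (f0, y0) ⟨hl0, h6⟩)))
        · exact Or.inr (Or.inl (Or.inr (h22 (f0, y0) ⟨hl0, h6⟩)))
      · exact Or.inr (Or.inr (h32 (f0, y0) ⟨hl0, h⟩))
    · intro f0 hl0 h
      simp only [Finset.mem_insert, Finset.mem_singleton]
      rcases h with h | h | h | h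
      · exact Or.inl h
      · exact Or.inr (Or.inl h)
      · exact (hd (h ▸ hl0)).elim
      · rcases kn f0 hl0.1 h with h6 | h6
        · exact Or.inr (Or.inr (Or.inl h6))
        · exact Or.inr (Or.inr (Or.inr h6))
    · have e2 := Finset.card_union_le (Lu ∪ Lv ∪ Lr) (L1 ∪ L2 ∪ L3)
      have e3 := card_u F L1 L2 L3
      omega
    · have e4 := Finset.card_insert_le u ({v, n1, n2} : Finset V)
      have e5 : ({v, n1, n2} : Finset V).card ≤ 3 := Finset.card_le_three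
      omega
  · obtain ⟨f1, k1, hB1⟩ := gb_iff.1 hg
    obtain ⟨v1, x1, y1, t1', q1, q1', k1', K, hl, hk⟩ := id hB1
    have hout2 := hout' f1 v1 x1 y1 t1' q1 q1' k1 k1' K
    simp only [Finset.mem_union, not_or] at hout2
    exact kfin Lr LQ (by omega) hr hq t1 f1 k1 hB1 (fun e => hout2.1.1 (ku f1 x1 hl e))
      (fun e => hout2.1.2 (kv f1 x1 hl e))

end facts

end Pool.Agent.Helper81.MC.G5

namespace Pool.Agent.Helper81.MC

open Pool.Agent.Helper27.MC hiding Fr T1 ter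
open Pool.Agent.Helper51.MC Pool.Agent.Helper88.MC Pool.Agent.Helper64.MC
open Pool.Agent.Helper33.MC Pool.Agent.Helper81.MC.G5
open Pool.Agent.Helper91.MC (sv_rm av_ex)
open Pool.Agent.Helper96.MC (n3_of)

/-- row G_C5N1 -/
theorem st_GC5a : ST_GC5a := by
  intro V _ _ G _ c j L H F hI hN h2 h3 h4 hL h5 hA
  obtain ⟨u, v, a, t, r, hM, hAv, huv, hav, hlv⟩ := hA
  obtain ⟨hl, hat, htu, ht, htr, hru, hrH, hb⟩ := id hM
  obtain ⟨v', b, hs, tb⟩ := fr_svG F hl.fr hl.adj hl.ta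
  have e1 : v = v' := sv_mateG F hs huv
  subst e1
  obtain ⟨u', b', hs', tb'⟩ := fr_svG F hlv.1 hav.symm hl.ta
  have e2 : u = u' := sv_mateG F hs' huv.symm
  subst e2
  obtain ⟨r', q, hst, hq⟩ := t1_svG F ht hat.symm hl.ta
  have e3 : r = r' := sv_mateG F hst htr
  subst e3
  have hvt : v ≠ t := by
    rintro rfl
    exact frG_not_T1 hlv.1 ht
  have ha : Av G c a u v t := by
    obtain ⟨y, z, h⟩ := av_ex F.reg hl.ta hl.adj.symm
    rcases (h.n3.nb v).1 hav with e | e | e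
    · exact (huv.1.ne e.symm).elim
    · rcases (h.n3.nb t).1 hat with e' | e' | e'
      · exact (htu e').elim
      · exact (hvt (e.trans e'.symm)).elim
      · subst e e'
        exact h
    · rcases (h.n3.nb t).1 hat with e' | e' | e'
      · exact (htu e').elim
      · subst e e'
        exact av_swap' h
      · exact (hvt (e.trans e'.symm)).elim
  exact main F ⟨hs, hs', ha, hl.ta, tb, tb', hst, hq, hl, hlv, hru, hrH,
    fun h => h4 ⟨u, a, t, r, hM, h⟩⟩ hI hN h4 h5 hL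

end Pool.Agent.Helper81.MC
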