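import Pool.Agent.Helper33.MC.St
import Pool.Agent.Helper33.MC.Bas
import Pool.Agent.Helper91.MC.SVX

/-!
MP_4042d8_co, row D_C5: case 5 of section D (an `M`-operation and a `U4`-operation).
-/

set_option autoImplicit false
set_option linter.unusedSectionVars false
set_option linter.unusedSimpArgs false
set_option linter.unusedVariables false

namespace Pool.Agent.Helper81.MC.D5

open Pool.Agent.Helper27.MC
open Pool.Agent.Helper51.MC Pool.Agent.Helper88.MC Pool.Agent.Helper64.MC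
open Pool.Agent.Helper33.MC Pool.Agent.Helper91.MC

variable {V : Type} [Fintype V] [DecidableEq V] {G : SimpleGraph V} [DecidableRel G.Adj]
  {c : V → Bool} {H : Finset V}

/-! ### types of vertices -/

theorem fr_tS {f : V} (h : f ∈ Fr G c) : tS G c f := by
  unfold Fr at h
  rw [Finset.mem_filter] at h
  exact h.2.1

theorem t1_tS {f : V} (h : f ∈ T1 G c) : tS G c f := by
  unfold T1 at h
  rw [Finset.mem_filter] at h
  exact h.2.1

theorem fr_t1 {f : V} (h : f ∈ Fr G c) (h' : f ∈ T1 G c) : False := by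
  unfold Fr at h
  unfold T1 at h'
  rw [Finset.mem_filter] at h h'
  have h1 := h.2.2
  have h2 := h'.2.2
  omega

theorem fr_noQ {f q : V} (h : f ∈ Fr G c) (e : G.Adj f q) (hq : tQ G c q) : False := by
  unfold Fr at h
  rw [Finset.mem_filter] at h
  have h1 := h.2.2
  unfold nQ at h1
  rw [Finset.card_eq_zero] at h1
  have h2 : q ∈ Finset.univ.filter (fun w => G.Adj f w ∧ tQ G c w) := by
    rw [Finset.mem_filter]
    exact ⟨Finset.mem_univ _, e, hq⟩
  rw [h1] at h2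
  exact absurd h2 (Finset.notMem_empty _)

theorem aF {x y : V} (hx : tA G c x) (e : G.Adj x y) : c y = false := by
  have h1 := mu_zero hx.2 y
  have h2 := hx.1
  cases hc : c y
  · rfl
  · exact absurd ⟨e, by rw [hc, h2]⟩ h1

theorem bT {x y : V} (hx : tB G c x) (e : G.Adj x y) : c y = true := by
  have h1 := mu_zero hx.2 y
  have h2 := hx.1
  cases hc : c y
  · exact absurd ⟨e, by rw [hc, h2]⟩ h1
  · rfl

theorem b_s {x : V} (hx : tB G c x) (hs : tS G c x) : False := by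
  have h1 := hx.2
  have h2 := hs.2
  omega

theorem a_q {x : V} (hx : tA G c x) (hs : tQ G c x) : False := by
  have h1 := hx.2
  have h2 := hs.2
  omega

theorem sv_rm {s m a b : V} (h : Sv G c s m a b) : Rm G c s m :=
  ⟨(h.n3.nb m).2 (Or.inl rfl), by rw [h.cm, h.cs]⟩

theorem sv_a {s m a b : V} (h : Sv G c s m a b) : G.Adj s a := (h.n3.nb a).2 (Or.inr (Or.inl rfl))

theorem sv_b {s m a b : V} (h : Sv G c s m a b) : G.Adj s b := (h.n3.nb b).2 (Or.inr (Or.inr rfl))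

theorem sv_mate {s m a b w : V} (h : Sv G c s m a b) (hw : Rm G c s w) : w = m := by
  rcases (h.n3.nb w).1 hw.1 with h1 | h1 | h1
  · exact h1
  · have h2 := hw.2
    rw [h1, h.ca, h.cs] at h2
    cases h2
  · have h2 := hw.2
    rw [h1, h.cb, h.cs] at h2
    cases h2

/-- true neighbours of an `S`-vertex -/
theorem sv_true {s m a b w : V} (h : Sv G c s m a b) (e : G.Adj s w) (hw : c w = true) : w = a ∨ w = b := by
  rcases (h.n3.nb w).1 e with h1 | h1 | h1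
  · rw [h1, h.cm] at hw
    cases hw
  · exact Or.inl h1
  · exact Or.inr h1

/-- the false neighbour of an `S`-vertex -/
theorem sv_false {s m a b w : V} (h : Sv G c s m a b) (e : G.Adj s w) (hw : c w = false) : w = m := by
  rcases (h.n3.nb w).1 e with h1 | h1 | h1
  · exact h1
  · rw [h1, h.ca] at hw
    cases hw
  · rw [h1, h.cb] at hw
    cases hw

section fx

variable (hF : Fx G c)
include hF

theorem fr_data {f x : V} (hf : f ∈ Fr G c) (hx : tA G c x) (e : G.Adj f x) :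
    ∃ m y, Sv G c f m x y ∧ tA G c y := by
  obtain ⟨m, y, hS⟩ := sv_ex hF.reg (fr_tS hf) e hx.1
  exact ⟨m, y, hS, ((sv_Fr hF.mu1 hS).1 hf).2⟩

theorem t1_data {t x : V} (ht : t ∈ T1 G c) (hx : tA G c x) (e : G.Adj t x) :
    ∃ r q, Sv G c t r x q ∧ tQ G c q := by
  obtain ⟨m, y, hS⟩ := sv_ex hF.reg (t1_tS ht) e hx.1
  refine ⟨m, y, hS, ?_⟩
  rcases (sv_T1 hF.mu1 hS).1 ht with h1 | h1
  · exact h1.2
  · exact absurd h1.1 (fun h2 => a_q hx h2)

theorem t1_data' {t : V} (ht : t ∈ T1 G c) : ∃ r a q, Sv G c t r a q ∧ tA G c a ∧ tQ G c q := by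
  have hs := t1_tS ht
  obtain ⟨m, a, b, hma, hmb, hab, nb, cm, ca, cb⟩ := (NB V G hF.reg c t).1 hs.2
  rw [hs.1] at ca
  obtain ⟨m, y, hS⟩ := sv_ex hF.reg hs ((nb a).2 (Or.inr (Or.inl rfl))) ca
  rcases (sv_T1 hF.mu1 hS).1 ht with h1 | h1
  · exact ⟨m, a, y, hS, h1.1, h1.2⟩
  · exact ⟨m, y, a, sv_swap hS, h1.2, h1.1⟩

theorem adjA_cases {s y : V} (hs : tS G c s) (hy : tA G c y) (e : G.Adj s y) : s ∈ Fr G c ∨ s ∈ T1 G c := by
  obtain ⟨m, z, hS⟩ := sv_ex hF.reg hs e hy.1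
  rcases tA_or_tQ hF.mu1 hS.cb with h1 | h1
  · exact Or.inl ((sv_Fr hF.mu1 hS).2 ⟨hy, h1⟩)
  · exact Or.inr ((sv_T1 hF.mu1 hS).2 (Or.inl ⟨hy, h1⟩))

/-- the `A`-neighbour of a `T1`-vertex is unique -/
theorem t1_uA {t x y : V} (ht : t ∈ T1 G c) (hx : tA G c x) (hy : tA G c y) (e : G.Adj t x) (e' : G.Adj t y) :
    y = x := by
  obtain ⟨r, q, hS, hq⟩ := t1_data hF ht hx e
  rcases sv_true hS e' hy.1 with h1 | h1
  · exact h1
  · rw [h1] at hy
    exact absurd hq (fun h2 => a_q hy h2)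

theorem rm_u {v y z : V} (h1 : Rm G c v y) (h2 : Rm G c v z) : y = z := rm_uniq (hF.mu1 v) h1 h2

end fx

theorem sqr_swap {s1 s2 a b v1 v2 w1 w2 : V} (h : Sqr G c s1 s2 a b v1 v2 w1 w2) :
    Sqr G c s2 s1 a b v2 v1 w1 w2 := by
  refine ⟨h.h2, h.h1, ⟨h.ha.ca, h.ha.cy, h.ha.cx, h.ha.cz, ⟨fun w => ?_, ?_, ?_, ?_⟩⟩,
    ⟨h.hb.ca, h.hb.cy, h.hb.cx, h.hb.cz, ⟨fun w => ?_, ?_, ?_, ?_⟩⟩, h.ta, h.tb, h.tw1, h.tw2, h.hw⟩
  · exact (h.ha.n3.nb w).trans (by tauto)
  · exact h.ha.n3.xy.symm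
  · exact h.ha.n3.yz
  · exact h.ha.n3.xz
  · exact (h.hb.n3.nb w).trans (by tauto)
  · exact h.hb.n3.xy.symm
  · exact h.hb.n3.yz
  · exact h.hb.n3.xz

/-! ### the hard set -/

theorem clr_mono {H H' : Finset V} {v : V} (hs : H ⊆ H') (h : Clr G H' v) : Clr G H v :=
  ⟨fun h1 => h.1 (hs h1), fun w e h1 => h.2 w e (hs h1)⟩

theorem nclr {K : Finset V} {v : V} (h : Clr G H v) (h' : ¬ Clr G (H ∪ K) v) : v ∈ K ∨ ∃ w ∈ K, G.Adj v w := by
  by_contra hc
  push Not at hc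
  apply h'
  refine ⟨?_, fun w hw => ?_⟩
  · rw [Finset.mem_union]
    rintro (h1 | h1)
    · exact h.1 h1
    · exact hc.1 h1
  · rw [Finset.mem_union]
    rintro (h1 | h1)
    · exact h.2 w hw h1
    · exact hc.2 w h1 hw

theorem mem_good {p : V × V} : p ∈ good G c H ↔ GS G c H p.1 p.2 := by
  unfold good
  simp only [Finset.mem_filter, Finset.mem_univ, true_and]

theorem mem_live {f : V} : f ∈ live G c H ↔ Live G c H f := by
  unfold live
  simp only [Finset.mem_filter, Finset.mem_univ, true_and]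

/-! ### case 5 -/

variable (G c H) in
/-- the hypotheses of case 5 -/
structure C5 : Prop where
  n1 : ¬ PN G c H
  n3 : ¬ P3 G c H
  n4 : ¬ P4 G c H

variable (G c H) in
/-- a good square slot -/
def SQ (f x : V) : Prop :=
  ∃ g y v v' w w', Sqr G c f g x y v v' w w' ∧ Live G c H g ∧ Avl G c H v

theorem ls_live {f x : V} (h : LS G c H f x) : Live G c H f := ⟨h.1, h.2.2.2.1⟩

section c5

variable (hF : Fx G c) (h5 : C5 G c H)
include hF h5

/-- the mate of an available vertex at a live slot is not live -/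
theorem mate_dead {f x t r : V} (hL : LS G c H f x) (e : G.Adj x t) (hne : t ≠ f) (ht : Avl G c H t)
    (hr : Rm G c t r) : ¬ Live G c H r := fun h =>
  h5.n4 ⟨f, x, t, r, ⟨hL, e, hne, ht.1, hr, ht.2.2 r hr.1⟩, h⟩

/-- the mates of the free vertices of an intact square with a live slot are not live -/
theorem sq_dead {f g x y v v' w w' : V} (hL : LS G c H f x) (hg : Live G c H g)
    (hS : Sqr G c f g x y v v' w w') : ¬ Live G c H v ∧ ¬ Live G c H v' := by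
  constructor
  · intro h
    refine h5.n3 ⟨g, f, x, y, v', v, w, w', sqr_swap hS, hg, ls_live hL, ?_, h⟩
    exact ⟨hg.1, hL.2.1, sv_a hS.h2, hg.2, hL.2.2.2.2⟩
  · intro h
    exact h5.n3 ⟨f, g, x, y, v, v', w, w', hS, ls_live hL, hg, hL, h⟩

/-- the good slots in case 5 -/
theorem cl5 {f x : V} (h : GS G c H f x) : (∃ t, G.Adj x t ∧ t ≠ f ∧ Avl G c H t) ∨ SQ G c H f x := by
  obtain ⟨hL, h1 | h1 | ⟨g, e, hne, hg, h2⟩⟩ := h
  · exact absurd ⟨f, x, hL, h1⟩ h5.n1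
  · exact Or.inl h1
  · right
    obtain ⟨y, v, v', w, w', hS⟩ := hF.f3 x f g hL.2.1 hL.1 hg.1 hne.symm hL.2.2.1.symm e
    obtain ⟨d1, d2⟩ := sq_dead hF h5 hL hg hS
    rcases h2 with ⟨m, hm, h3 | h3⟩ | ⟨m, hm, h3⟩
    · rw [sv_mate hS.h1 hm] at h3
      exact absurd h3 d1
    · rw [sv_mate hS.h1 hm] at h3
      exact ⟨g, y, v, v', w, w', hS, hg, h3⟩
    · rw [sv_mate hS.h2 hm] at h3
      exact absurd h3 d2

/-- the loss lemma of case 5 -/
theorem gl5 {H' : Finset V} (hs : H ⊆ H') {f x : V} (h : GS G c H f x) (h' : ¬ GS G c H' f x) :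
    ¬ Clr G H' f ∨ ¬ Clr G H' x ∨
    (∃ t r, G.Adj x t ∧ t ≠ f ∧ Avl G c H t ∧ ¬ Clr G H' t ∧ Rm G c t r ∧ r ∉ H') ∨
    (SQ G c H f x ∧ ∃ v, Rm G c f v ∧ Avl G c H v ∧ ¬ Clr G H' v) := by
  by_cases hf : Clr G H' f
  swap
  · exact Or.inl hf
  by_cases hx : Clr G H' x
  swap
  · exact Or.inr (Or.inl hx)
  right
  right
  have hL := h.1
  have hL' : LS G c H' f x := ⟨hL.1, hL.2.1, hL.2.2.1, hf, hx⟩
  rcases cl5 hF h5 h with ⟨t, e, hne, ht⟩ | ⟨g, y, v, v', w, w', hS, hg, hv⟩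
  · left
    by_cases hct : Clr G H' t
    · exact absurd ⟨hL', Or.inr (Or.inl ⟨t, e, hne, ht.1, hct⟩)⟩ h'
    obtain ⟨r, a, q, hSt, -, -⟩ := t1_data' hF ht.1
    have hr := sv_rm hSt
    by_cases hrH : r ∈ H'
    swap
    · exact ⟨t, r, e, hne, ht, hct, hr, hrH⟩
    exfalso
    refine h' ⟨hL', Or.inl fun z hz hzf => ?_⟩
    intro y hy
    by_cases hzt : z = t
    · rw [hzt] at hy
      rw [sv_mate hSt hy]
      exact Or.inr hrH
    · exfalso
      have cz : c z = false := aF hL.2.1 hz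
      rcases tB_or_tS hF.mu1 cz with h1 | h1
      · exact mu_zero h1.2 y hy
      · rcases hF.f2 x f t z hL.2.1 (fr_tS hL.1) (t1_tS ht.1) h1 hL.2.2.1.symm e hz with h2 | h2 | h2
        · exact hne h2.symm
        · exact hzf h2.symm
        · exact hzt h2.symm
  · right
    refine ⟨⟨g, y, v, v', w, w', hS, hg, hv⟩, v, sv_rm hS.h1, hv, fun hcv => ?_⟩
    by_cases hcg : Clr G H' g
    · exact h' ⟨hL', Or.inr (Or.inr ⟨g, (sv_a hS.h2).symm, hS.ha.n3.xy.symm, ⟨hg.1, hcg⟩,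
        Or.inl ⟨v, sv_rm hS.h1, Or.inr ⟨hv.1, hcv⟩⟩⟩)⟩
    · have hv' : v' ∈ H' := by
        by_contra hn
        apply hcg
        refine ⟨fun h1 => hx.2 g (sv_a hS.h2).symm h1, fun z hz => ?_⟩
        rcases (hS.h2.n3.nb z).1 hz with h1 | h1 | h1
        · rw [h1]
          exact hn
        · rw [h1]
          exact hx.1
        · rw [h1]
          exact hf.2 y (sv_b hS.h1)
      refine h' ⟨hL', Or.inl fun z hz hzf => ?_⟩
      intro u hu
      rcases (hS.ha.n3.nb z).1 hz with h1 | h1 | h1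
      · exact absurd h1 hzf
      · rw [h1] at hu
        rw [sv_mate hS.h2 hu]
        exact Or.inr hv'
      · rw [h1] at hu
        exact absurd hu (mu_zero hS.tw1.2 u)

end c5

/-! ### short lists -/

/-- the live slots of a vertex -/
theorem two_f (hF : Fx G c) (f : V) : ∃ L : Finset (V × V), L.card ≤ 2 ∧ ∀ y, LS G c H f y → (f, y) ∈ L := by
  by_cases h : ∃ y, LS G c H f y
  · obtain ⟨y, hL⟩ := h
    obtain ⟨m, z, hS, -⟩ := fr_data hF hL.1 hL.2.1 hL.2.2.1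
    refine ⟨{(f, y), (f, z)}, Finset.card_le_two, fun y' h' => ?_⟩
    rcases sv_true hS h'.2.2.1 h'.2.1.1 with h1 | h1
    · rw [h1]
      exact Finset.mem_insert_self _ _
    · rw [h1]
      exact Finset.mem_insert_of_mem (Finset.mem_singleton_self _)
  · exact ⟨∅, by simp, fun y hy => absurd ⟨y, hy⟩ h⟩

/-- the live slots at the `A`-neighbour of a `T1`-vertex -/
theorem one_t (hF : Fx G c) (t : V) : ∃ L : Finset (V × V), L.card ≤ 1 ∧ ∀ f y, LS G c H f y → t ∈ T1 G c →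
    G.Adj y t → (f, y) ∈ L := by
  by_cases h : ∃ f y, LS G c H f y ∧ t ∈ T1 G c ∧ G.Adj y t
  · obtain ⟨f, y, hL, ht, e⟩ := h
    refine ⟨{(f, y)}, by simp, fun f' y' hL' _ e' => ?_⟩
    have h1 : y' = y := t1_uA hF ht hL.2.1 hL'.2.1 e.symm e'.symm
    subst h1
    have h2 : f' = f := by
      rcases hF.f2 y' f f' t hL.2.1 (fr_tS hL.1) (fr_tS hL'.1) (t1_tS ht) hL.2.2.1.symm hL'.2.2.1.symm e with
        h1 | h1 | h1
      · exact h1.symm
      · rw [← h1] at ht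
        exact absurd ht (fun h3 => fr_t1 hL.1 h3)
      · rw [← h1] at ht
        exact absurd ht (fun h3 => fr_t1 hL'.1 h3)
    rw [h2]
    exact Finset.mem_singleton_self _
  · exact ⟨∅, by simp, fun f y hL ht e => absurd ⟨f, y, hL, ht, e⟩ h⟩

/-- a free vertex at a live slot whose mate is outside is live -/
theorem deadF (hF : Fx G c) {f y r m : V} (hL : LS G c H f y) (e : G.Adj y r) (hne : r ≠ f) (hr : r ∈ Fr G c)
    (hm : Rm G c r m) (hmH : m ∉ H) : Live G c H r := by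
  obtain ⟨z, v, v', w, w', hS⟩ := hF.f3 y f r hL.2.1 hL.1 hr hne.symm hL.2.2.1.symm e
  refine ⟨hr, hL.2.2.2.2.2 r e, fun u hu => ?_⟩
  rcases (hS.h2.n3.nb u).1 hu with h1 | h1 | h1
  · rw [h1, ← sv_mate hS.h2 hm]
    exact hmH
  · rw [h1]
    exact hL.2.2.2.2.1
  · rw [h1]
    exact hL.2.2.2.1.2 z (sv_b hS.h1)

/-- the list of the third `T1`-vertex -/
theorem lst3 (hF : Fx G c) (h5 : C5 G c H) {p : V} (hp : tQ G c p) : ∃ L : Finset (V × V), L.card ≤ 2 ∧
    ∀ f y, LS G c H f y → ((∃ t, Avl G c H t ∧ G.Adj y t ∧ t ≠ f ∧ G.Adj t p) ∨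
      ∃ t, Rm G c f t ∧ Avl G c H t ∧ G.Adj t p) → (f, y) ∈ L := by
  by_cases h : ∃ t, Avl G c H t ∧ G.Adj t p
  swap
  · refine ⟨∅, by simp, fun f y hL h1 => ?_⟩
    rcases h1 with ⟨t, h1, -, -, h2⟩ | ⟨t, -, h1, h2⟩
    · exact absurd ⟨t, h1, h2⟩ h
    · exact absurd ⟨t, h1, h2⟩ h
  obtain ⟨t, ht, etp⟩ := h
  have hu : ∀ t', Avl G c H t' → G.Adj t' p → t' = t := fun t' h1 h2 =>
    hF.f1 p t' t hp (t1_tS h1.1) (t1_tS ht.1) h2.symm etp.symm
  obtain ⟨r, a, q, hS, ha, hq⟩ := t1_data' hF ht.1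
  by_cases hr : Live G c H r
  · obtain ⟨L, hL1, hL2⟩ := two_f (H := H) hF r
    refine ⟨L, hL1, fun f y hL h1 => ?_⟩
    rcases h1 with ⟨t', h1, h2, h3, h4⟩ | ⟨t', h1, h2, h3⟩
    · rw [hu t' h1 h4] at h2 h3
      exact absurd hr (mate_dead hF h5 hL h2 h3 ht (sv_rm hS))
    · rw [hu t' h2 h3] at h1
      have h4 : f = r := sv_mate hS h1.symm
      rw [h4] at hL ⊢
      exact hL2 y hL
  · obtain ⟨L, hL1, hL2⟩ := one_t (H := H) hF t
    refine ⟨L, by omega, fun f y hL h1 => ?_⟩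
    rcases h1 with ⟨t', h1, h2, h3, h4⟩ | ⟨t', h1, h2, h3⟩
    · rw [hu t' h1 h4] at h2
      exact hL2 f y hL ht.1 h2
    · rw [hu t' h2 h3] at h1
      have h4 : f = r := sv_mate hS h1.symm
      rw [h4] at hL
      exact absurd (ls_live hL) hr

/-! ### the neighbourhoods of the two hard sets -/

section nb

variable {u v a b x t r q : V}

/-- `S`-vertices near `K1` -/
theorem k1_S (hF : Fx G c) (hu : Sv G c u v a b) (ha : Av G c a u x t) (hA : tA G c a) (hB : tA G c b)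
    (hx : tB G c x) (ht : Sv G c t r a q) {z : V} (hz : tS G c z)
    (h : z ∈ ({u, b, x, a, t, r} : Finset V) ∨ ∃ w ∈ ({u, b, x, a, t, r} : Finset V), G.Adj z w) :
    z = u ∨ z = v ∨ z = t ∨ z = r ∨ G.Adj b z := by
  have cz := hz.1
  have hbs : z ≠ x := fun e => b_s hx (e ▸ hz)
  rcases h with hK | ⟨w, hK, hw⟩
  · simp only [Finset.mem_insert, Finset.mem_singleton] at hK
    rcases hK with h1 | h1 | h1 | h1 | h1 | h1
    · exact Or.inl h1
    · rw [h1, hB.1] at cz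
      cases cz
    · exact absurd h1 hbs
    · rw [h1, hA.1] at cz
      cases cz
    · exact Or.inr (Or.inr (Or.inl h1))
    · exact Or.inr (Or.inr (Or.inr (Or.inl h1)))
  · simp only [Finset.mem_insert, Finset.mem_singleton] at hK
    rcases hK with h1 | h1 | h1 | h1 | h1 | h1
    · rw [h1] at hw
      exact Or.inr (Or.inl (sv_false hu hw.symm cz))
    · rw [h1] at hw
      exact Or.inr (Or.inr (Or.inr (Or.inr hw.symm)))
    · rw [h1] at hw
      have h2 := bT hx hw.symm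
      rw [h2] at cz
      cases cz
    · rw [h1] at hw
      rcases (ha.n3.nb z).1 hw.symm with h2 | h2 | h2
      · exact Or.inl h2
      · exact absurd h2 hbs
      · exact Or.inr (Or.inr (Or.inl h2))
    · rw [h1] at hw
      exact Or.inr (Or.inr (Or.inr (Or.inl (sv_false ht hw.symm cz))))
    · rw [h1] at hw
      have h2 : Rm G c r z := ⟨hw.symm, by rw [cz, ht.cm]⟩
      exact Or.inr (Or.inr (Or.inl (rm_u hF h2 (sv_rm ht).symm)))

/-- `A`-vertices near `K1` -/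
theorem k1_A (hu : Sv G c u v a b) (hA : tA G c a) (hB : tA G c b) (hx : tB G c x) (ht : Sv G c t r a q) {z : V}
    (hz : tA G c z)
    (h : z ∈ ({u, b, x, a, t, r} : Finset V) ∨ ∃ w ∈ ({u, b, x, a, t, r} : Finset V), G.Adj z w) :
    z = a ∨ z = b ∨ z = q ∨ G.Adj z x ∨ G.Adj z r := by
  have cz := hz.1
  rcases h with hK | ⟨w, hK, hw⟩
  · simp only [Finset.mem_insert, Finset.mem_singleton] at hK
    rcases hK with h1 | h1 | h1 | h1 | h1 | h1
    · rw [h1, hu.cs] at cz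
      cases cz
    · exact Or.inr (Or.inl h1)
    · rw [h1, hx.1] at cz
      cases cz
    · exact Or.inl h1
    · rw [h1, ht.cs] at cz
      cases cz
    · rw [h1, ht.cm] at cz
      cases cz
  · simp only [Finset.mem_insert, Finset.mem_singleton] at hK
    rcases hK with h1 | h1 | h1 | h1 | h1 | h1
    · rw [h1] at hw
      rcases sv_true hu hw.symm cz with h2 | h2
      · exact Or.inl h2
      · exact Or.inr (Or.inl h2)
    · rw [h1] at hw
      have h2 := aF hB hw.symm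
      rw [h2] at cz
      cases cz
    · rw [h1] at hw
      exact Or.inr (Or.inr (Or.inr (Or.inl hw)))
    · rw [h1] at hw
      have h2 := aF hA hw.symm
      rw [h2] at cz
      cases cz
    · rw [h1] at hw
      rcases sv_true ht hw.symm cz with h2 | h2
      · exact Or.inl h2
      · exact Or.inr (Or.inr (Or.inl h2))
    · rw [h1] at hw
      exact Or.inr (Or.inr (Or.inr (Or.inr hw)))

variable {p p' : V}

/-- `S`-vertices near `K2` -/
theorem k2_S (hF : Fx G c) (ht : Sv G c t r a p) (hA : tA G c a) (hp : tQ G c p) (hpp : Rm G c p p') {z : V}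
    (hz : tS G c z)
    (h : z ∈ ({t, a, p, p'} : Finset V) ∨ ∃ w ∈ ({t, a, p, p'} : Finset V), G.Adj z w) :
    z = t ∨ z = r ∨ G.Adj z a ∨ G.Adj z p' := by
  have cz := hz.1
  have cp' : c p' = true := by rw [hpp.2, hp.1]
  rcases h with hK | ⟨w, hK, hw⟩
  · simp only [Finset.mem_insert, Finset.mem_singleton] at hK
    rcases hK with h1 | h1 | h1 | h1
    · exact Or.inl h1
    · rw [h1, hA.1] at cz
      cases cz
    · rw [h1, hp.1] at cz
      cases cz
    · rw [h1, cp'] at cz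
      cases cz
  · simp only [Finset.mem_insert, Finset.mem_singleton] at hK
    rcases hK with h1 | h1 | h1 | h1
    · rw [h1] at hw
      exact Or.inr (Or.inl (sv_false ht hw.symm cz))
    · rw [h1] at hw
      exact Or.inr (Or.inr (Or.inl hw))
    · rw [h1] at hw
      exact Or.inl (hF.f1 p z t hp hz (sv_tS hF.mu1 ht) hw.symm (sv_b ht).symm)
    · rw [h1] at hw
      exact Or.inr (Or.inr (Or.inr hw))

theorem rm_tQ (hF : Fx G c) (hp : tQ G c p) (hpp : Rm G c p p') : tQ G c p' :=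
  ⟨by rw [hpp.2, hp.1], mu_of_rm hF.mu1 hpp.symm⟩

/-- `A`-vertices near `K2` -/
theorem k2_A (hF : Fx G c) (ht : Sv G c t r a p) (hA : tA G c a) (hp : tQ G c p) (hpp : Rm G c p p') {z : V}
    (hz : tA G c z)
    (h : z ∈ ({t, a, p, p'} : Finset V) ∨ ∃ w ∈ ({t, a, p, p'} : Finset V), G.Adj z w) : z = a := by
  have cz := hz.1
  have hp' := rm_tQ hF hp hpp
  rcases h with hK | ⟨w, hK, hw⟩
  · simp only [Finset.mem_insert, Finset.mem_singleton] at hK
    rcases hK with h1 | h1 | h1 | h1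
    · rw [h1, ht.cs] at cz
      cases cz
    · exact h1
    · rw [h1] at hz
      exact absurd hp (fun h2 => a_q hz h2)
    · rw [h1] at hz
      exact absurd hp' (fun h2 => a_q hz h2)
  · simp only [Finset.mem_insert, Finset.mem_singleton] at hK
    rcases hK with h1 | h1 | h1 | h1
    · rw [h1] at hw
      rcases sv_true ht hw.symm cz with h2 | h2
      · exact h2
      · rw [h2] at hz
        exact absurd hp (fun h2 => a_q hz h2)
    · rw [h1] at hw
      have h2 := aF hA hw.symm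
      rw [h2] at cz
      cases cz
    · rw [h1] at hw
      exact absurd ⟨hw, by rw [cz, hp.1]⟩ (mu_zero hz.2 p)
    · rw [h1] at hw
      exact absurd ⟨hw, by rw [cz, hp'.1]⟩ (mu_zero hz.2 p')

end nb

theorem nclr2 {K1 K2 : Finset V} {z : V} (h : Clr G H z) (h' : ¬ Clr G (H ∪ K1 ∪ K2) z) :
    (z ∈ K1 ∨ ∃ w ∈ K1, G.Adj z w) ∨ (z ∈ K2 ∨ ∃ w ∈ K2, G.Adj z w) := by
  by_cases h1 : Clr G (H ∪ K1) z
  · exact Or.inr (nclr h1 h')
  · exact Or.inl (nclr h h1)

section main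

variable {u v a b x t r q t2 r2 a2 p p' : V}

/-- CLASSIFICATION of the lost slots -/
theorem lost (hF : Fx G c) (h5 : C5 G c H) (hu : Sv G c u v a b) (ha : Av G c a u x t) (hA : tA G c a)
    (hB : tA G c b) (hx : tB G c x) (ht : Sv G c t r a q) (ht2 : Sv G c t2 r2 a2 p) (hA2 : tA G c a2)
    (hp : tQ G c p) (hpp : Rm G c p p') {f y : V} (h : GS G c H f y)
    (h' : ¬ GS G c (H ∪ {u, b, x, a, t, r} ∪ {t2, a2, p, p'}) f y) :
    (f = u ∨ f = v ∨ f = t ∨ f = r ∨ G.Adj b f ∨ y = a ∨ y = b ∨ y = q ∨ G.Adj y x ∨ G.Adj y r) ∨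
    (f = r2 ∨ G.Adj f a2) ∨
    (∃ t3, Avl G c H t3 ∧ G.Adj y t3 ∧ t3 ≠ f ∧ (G.Adj b t3 ∨ G.Adj t3 p')) ∨
    (∃ v3, Rm G c f v3 ∧ Avl G c H v3 ∧ SQ G c H f y ∧ (G.Adj b v3 ∨ G.Adj v3 a2 ∨ G.Adj v3 p')) := by
  have hL := h.1
  have hT2 : t2 ∈ T1 G c := (sv_T1 hF.mu1 ht2).2 (Or.inl ⟨hA2, hp⟩)
  have hUF : u ∈ Fr G c := (sv_Fr hF.mu1 hu).2 ⟨hA, hB⟩
  have hp' := rm_tQ hF hp hpp
  have hs : H ⊆ H ∪ {u, b, x, a, t, r} ∪ {t2, a2, p, p'} := by
    intro z hz
    rw [Finset.mem_union, Finset.mem_union]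
    exact Or.inl (Or.inl hz)
  have mK1 : ∀ z, z ∈ ({u, b, x, a, t, r} : Finset V) → z ∈ H ∪ {u, b, x, a, t, r} ∪ {t2, a2, p, p'} := by
    intro z hz
    rw [Finset.mem_union, Finset.mem_union]
    exact Or.inl (Or.inr hz)
  have mK2 : ∀ z, z ∈ ({t2, a2, p, p'} : Finset V) → z ∈ H ∪ {u, b, x, a, t, r} ∪ {t2, a2, p, p'} := by
    intro z hz
    rw [Finset.mem_union]
    exact Or.inr hz
  rcases gl5 hF h5 hs h h' with h1 | h1 | ⟨t3, r3, e, hne, h3, hc, hr, hrH⟩ | ⟨hsq, v3, hv, h3, hc⟩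
  · rcases nclr2 hL.2.2.2.1 h1 with h2 | h2
    · left
      rcases k1_S hF hu ha hA hB hx ht (fr_tS hL.1) h2 with h3 | h3 | h3 | h3 | h3
      · exact Or.inl h3
      · exact Or.inr (Or.inl h3)
      · exact Or.inr (Or.inr (Or.inl h3))
      · exact Or.inr (Or.inr (Or.inr (Or.inl h3)))
      · exact Or.inr (Or.inr (Or.inr (Or.inr (Or.inl h3))))
    · right
      left
      rcases k2_S hF ht2 hA2 hp hpp (fr_tS hL.1) h2 with h3 | h3 | h3 | h3
      · rw [← h3] at hT2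
        exact absurd hT2 (fun h4 => fr_t1 hL.1 h4)
      · exact Or.inl h3
      · exact Or.inr h3
      · exact absurd hp' (fun h4 => fr_noQ hL.1 h3 h4)
  · rcases nclr2 hL.2.2.2.2 h1 with h2 | h2
    · left
      rcases k1_A hu hA hB hx ht hL.2.1 h2 with h3 | h3 | h3 | h3 | h3
      · exact Or.inr (Or.inr (Or.inr (Or.inr (Or.inr (Or.inl h3)))))
      · exact Or.inr (Or.inr (Or.inr (Or.inr (Or.inr (Or.inr (Or.inl h3))))))
      · exact Or.inr (Or.inr (Or.inr (Or.inr (Or.inr (Or.inr (Or.inr (Or.inl h3)))))))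
      · exact Or.inr (Or.inr (Or.inr (Or.inr (Or.inr (Or.inr (Or.inr (Or.inr (Or.inl h3))))))))
      · exact Or.inr (Or.inr (Or.inr (Or.inr (Or.inr (Or.inr (Or.inr (Or.inr (Or.inr h3))))))))
    · right
      left
      right
      rw [← k2_A hF ht2 hA2 hp hpp hL.2.1 h2]
      exact hL.2.2.1
  · rcases nclr2 h3.2 hc with h2 | h2
    · rcases k1_S hF hu ha hA hB hx ht (t1_tS h3.1) h2 with h4 | h4 | h4 | h4 | h4
      · rw [← h4] at hUF
        exact absurd h3.1 (fun h5 => fr_t1 hUF h5)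
      · rw [h4] at hr
        have h6 : r3 = u := rm_u hF hr (sv_rm hu).symm
        exact absurd (mK1 r3 (by rw [h6]; simp)) hrH
      · rw [h4] at hr
        have h6 : r3 = r := sv_mate ht hr
        exact absurd (mK1 r3 (by rw [h6]; simp)) hrH
      · rw [h4] at hr
        have h6 : r3 = t := rm_u hF hr (sv_rm ht).symm
        exact absurd (mK1 r3 (by rw [h6]; simp)) hrH
      · exact Or.inr (Or.inr (Or.inl ⟨t3, h3, e, hne, Or.inl h4⟩))
    · rcases k2_S hF ht2 hA2 hp hpp (t1_tS h3.1) h2 with h4 | h4 | h4 | h4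
      · rw [h4] at e
        rcases sv_true ht2 e.symm hL.2.1.1 with h6 | h6
        · rw [← h6]
          exact Or.inr (Or.inl (Or.inr hL.2.2.1))
        · rw [← h6] at hp
          exact absurd hp (fun h7 => a_q hL.2.1 h7)
      · rw [h4] at hr
        have h6 : r3 = t2 := rm_u hF hr (sv_rm ht2).symm
        exact absurd (mK2 r3 (by rw [h6]; simp)) hrH
      · have h6 : y = a2 := t1_uA hF h3.1 hA2 hL.2.1 h4 e.symm
        rw [← h6]
        exact Or.inr (Or.inl (Or.inr hL.2.2.1))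
      · exact Or.inr (Or.inr (Or.inl ⟨t3, h3, e, hne, Or.inr h4⟩))
  · rcases nclr2 h3.2 hc with h2 | h2
    · rcases k1_S hF hu ha hA hB hx ht (t1_tS h3.1) h2 with h4 | h4 | h4 | h4 | h4
      · rw [h4] at hv
        exact Or.inl (Or.inr (Or.inl (sv_mate hu hv.symm)))
      · rw [h4] at hv
        exact Or.inl (Or.inl (rm_u hF hv.symm (sv_rm hu).symm))
      · rw [h4] at hv
        exact Or.inl (Or.inr (Or.inr (Or.inr (Or.inl (sv_mate ht hv.symm)))))
      · rw [h4] at hv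
        exact Or.inl (Or.inr (Or.inr (Or.inl (rm_u hF hv.symm (sv_rm ht).symm))))
      · exact Or.inr (Or.inr (Or.inr ⟨v3, hv, h3, hsq, Or.inl h4⟩))
    · rcases k2_S hF ht2 hA2 hp hpp (t1_tS h3.1) h2 with h4 | h4 | h4 | h4
      · rw [h4] at hv
        exact Or.inr (Or.inl (Or.inl (sv_mate ht2 hv.symm)))
      · rw [h4] at hv
        have h6 : f = t2 := rm_u hF hv.symm (sv_rm ht2).symm
        rw [← h6] at hT2
        exact absurd hT2 (fun h7 => fr_t1 hL.1 h7)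
      · exact Or.inr (Or.inr (Or.inr ⟨v3, hv, h3, hsq, Or.inr (Or.inl h4)⟩))
      · exact Or.inr (Or.inr (Or.inr ⟨v3, hv, h3, hsq, Or.inr (Or.inr h4)⟩))

/-- the lost live vertices -/
theorem lostf (hF : Fx G c) (hu : Sv G c u v a b) (ha : Av G c a u x t) (hA : tA G c a)
    (hB : tA G c b) (hx : tB G c x) (ht : Sv G c t r a q) (ht2 : Sv G c t2 r2 a2 p) (hA2 : tA G c a2)
    (hp : tQ G c p) (hpp : Rm G c p p') {f : V} (h : Live G c H f)
    (h' : ¬ Live G c (H ∪ {u, b, x, a, t, r} ∪ {t2, a2, p, p'}) f) :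
    (f = u ∨ f = v ∨ f = t ∨ f = r ∨ G.Adj b f) ∨ (f = r2 ∨ G.Adj f a2) := by
  have hT2 : t2 ∈ T1 G c := (sv_T1 hF.mu1 ht2).2 (Or.inl ⟨hA2, hp⟩)
  have hp' := rm_tQ hF hp hpp
  have h1 : ¬ Clr G (H ∪ {u, b, x, a, t, r} ∪ {t2, a2, p, p'}) f := fun h2 => h' ⟨h.1, h2⟩
  rcases nclr2 h.2 h1 with h2 | h2
  · exact Or.inl (k1_S hF hu ha hA hB hx ht (fr_tS h.1) h2)
  · right
    rcases k2_S hF ht2 hA2 hp hpp (fr_tS h.1) h2 with h3 | h3 | h3 | h3
    · rw [← h3] at hT2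
      exact absurd hT2 (fun h4 => fr_t1 h.1 h4)
    · exact Or.inl h3
    · exact Or.inr h3
    · exact absurd hp' (fun h4 => fr_noQ h.1 h3 h4)

/-- the second `S`-neighbour -/
theorem one_a (hF : Fx G c) (hA2 : tA G c a2) (ht : tS G c t2) (e : G.Adj t2 a2) :
    ∃ z, ∀ f, tS G c f → G.Adj f a2 → f = t2 ∨ f = z := by
  by_cases h : ∃ z, tS G c z ∧ G.Adj z a2 ∧ z ≠ t2
  · obtain ⟨z, hz, ez, hne⟩ := h
    refine ⟨z, fun f hf ef => ?_⟩
    rcases hF.f2 a2 f t2 z hA2 hf ht hz ef.symm e.symm ez.symm with h1 | h1 | h1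
    · exact Or.inl h1
    · exact Or.inr h1
    · exact absurd h1.symm hne
  · refine ⟨t2, fun f hf ef => Or.inl ?_⟩
    by_contra hne
    exact h ⟨f, hf, ef, hne⟩

/-- the list of the second `S`-neighbour of `a2` -/
theorem lstC (hF : Fx G c) (hA2 : tA G c a2) (ht2 : Sv G c t2 r2 a2 p) (hT2 : t2 ∈ T1 G c) :
    ∃ L : Finset (V × V), L.card ≤ 2 ∧ ∀ f y, LS G c H f y →
      (G.Adj f a2 ∨ ∃ v3, Rm G c f v3 ∧ Avl G c H v3 ∧ G.Adj v3 a2) → (f, y) ∈ L ∨ f = r2 := by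
  obtain ⟨z, hz⟩ := one_a hF hA2 (t1_tS hT2) (sv_a ht2)
  by_cases hzT : z ∈ T1 G c
  · obtain ⟨m, a', q', hS, -, -⟩ := t1_data' hF hzT
    obtain ⟨L, hL1, hL2⟩ := two_f (H := H) hF m
    refine ⟨L, hL1, fun f y hL h => ?_⟩
    rcases h with h | ⟨v3, h1, h2, h3⟩
    · exfalso
      rcases hz f (fr_tS hL.1) h with h1 | h1
      · rw [← h1] at hT2
        exact fr_t1 hL.1 hT2
      · rw [← h1] at hzT
        exact fr_t1 hL.1 hzT
    · rcases hz v3 (t1_tS h2.1) h3 with h4 | h4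
      · rw [h4] at h1
        exact Or.inr (sv_mate ht2 h1.symm)
      · rw [h4] at h1
        have h6 : f = m := sv_mate hS h1.symm
        rw [h6] at hL ⊢
        exact Or.inl (hL2 y hL)
  · obtain ⟨L, hL1, hL2⟩ := two_f (H := H) hF z
    refine ⟨L, hL1, fun f y hL h => ?_⟩
    rcases h with h | ⟨v3, h1, h2, h3⟩
    · rcases hz f (fr_tS hL.1) h with h1 | h1
      · rw [← h1] at hT2
        exact absurd hT2 (fun h2 => fr_t1 hL.1 h2)
      · rw [h1] at hL ⊢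
        exact Or.inl (hL2 y hL)
    · rcases hz v3 (t1_tS h2.1) h3 with h4 | h4
      · rw [h4] at h1
        exact Or.inr (sv_mate ht2 h1.symm)
      · rw [h4] at h2
        exact absurd h2.1 hzT

/-- THE TWO OPERATIONS from the lists -/
theorem fin5 (hF : Fx G c) (hI : Inv G c H) (hu : Sv G c u v a b) (ha : Av G c a u x t) (hA : tA G c a)
    (hB : tA G c b) (hx : tB G c x) (ht : Sv G c t r a q) (hcu : Clr G H u) (hca : Clr G H a) (hru : r ≠ u)
    (hrH : r ∉ H) (ht2 : Sv G c t2 r2 a2 p) (hA2 : tA G c a2) (hp : tQ G c p) (hpp : Rm G c p p')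
    (hc2 : Clr G (H ∪ {u, b, x, a, t, r}) t2) (L : Finset (V × V)) (hL : L.card ≤ 12)
    (hl : ∀ f y, GS G c H f y → ¬ GS G c (H ∪ {u, b, x, a, t, r} ∪ {t2, a2, p, p'}) f y → (f, y) ∈ L)
    (M : Finset V) (hM : M.card ≤ 5)
    (hm : ∀ f, Live G c H f → ¬ Live G c (H ∪ {u, b, x, a, t, r} ∪ {t2, a2, p, p'}) f → f ∈ M) :
    ∃ H1 H', OpM G c H H1 ∧ OpV G c H1 H' ∧ Loss G c H H' 12 5 := by
  have hp' := rm_tQ hF hp hpp
  refine ⟨H ∪ {u, b, x, a, t, r}, H ∪ {u, b, x, a, t, r} ∪ {t2, a2, p, p'},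
    ⟨u, v, a, b, x, t, r, hu, ha, hA, hB, hcu, hca, fun y hy => absurd hy (mu_zero hx.2 y), sv_rm ht, hru, hrH, rfl⟩,
    ⟨t2, r2, a2, p, p', ht2, hA2, hp, hpp, hc2, ?_, rfl⟩, ?_, ?_⟩
  · rw [Finset.mem_union]
    rintro (h1 | h1)
    · have h2 := hI p' p hp' hpp.symm h1
      exact hc2.2 p (sv_b ht2) (Finset.mem_union_left _ h2)
    · simp only [Finset.mem_insert, Finset.mem_singleton] at h1
      have cp := hp'.1
      rcases h1 with h1 | h1 | h1 | h1 | h1 | h1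
      · rw [h1, hu.cs] at cp
        cases cp
      · rw [h1] at hp'
        exact a_q hB hp'
      · rw [h1, hx.1] at cp
        cases cp
      · rw [h1] at hp'
        exact a_q hA hp'
      · rw [h1, ht.cs] at cp
        cases cp
      · rw [h1, ht.cm] at cp
        cases cp
  · refine (Finset.card_le_card ?_).trans hL
    rintro ⟨f, y⟩ h
    rw [Finset.mem_sdiff, mem_good, mem_good] at h
    exact hl f y h.1 h.2
  · refine (Finset.card_le_card ?_).trans hM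
    intro f h
    rw [Finset.mem_sdiff, mem_live, mem_live] at h
    exact hm f h.1 h.2

end main

theorem av_swap {a x y z : V} (h : Av G c a x y z) : Av G c a x z y :=
  ⟨h.ca, h.cx, h.cz, h.cy, ⟨fun w => (h.n3.nb w).trans (by tauto), h.n3.xz, h.n3.xy, h.n3.yz.symm⟩⟩

theorem ex_out {s L : Finset (V × V)} (h : L.card < s.card) : ∃ f y, (f, y) ∈ s ∧ (f, y) ∉ L := by
  by_contra hc
  push Not at hc
  have h1 : s ⊆ L := by
    rintro ⟨f, y⟩ hp
    exact hc f y hp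
  have h2 := Finset.card_le_card h1
  omega

theorem card6 (A B C D E F : Finset (V × V)) {m n : ℕ} (hA : A.card ≤ 2) (hB : B.card ≤ 2) (hC : C.card ≤ 2)
    (hD : D.card ≤ m) (hE : E.card ≤ 2) (hF : F.card ≤ 2) (hm : 10 + m ≤ n) :
    (A ∪ B ∪ C ∪ D ∪ E ∪ F).card ≤ n := by
  have h1 := Finset.card_union_le (A ∪ B ∪ C ∪ D ∪ E) F
  have h2 := Finset.card_union_le (A ∪ B ∪ C ∪ D) E
  have h3 := Finset.card_union_le (A ∪ B ∪ C) D
  have h4 := Finset.card_union_le (A ∪ B) C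
  have h5 := Finset.card_union_le A B
  omega

theorem mem6 {A B C D E F : Finset (V × V)} {p : V × V}
    (h : p ∈ A ∨ p ∈ B ∨ p ∈ C ∨ p ∈ D ∨ p ∈ E ∨ p ∈ F) : p ∈ A ∪ B ∪ C ∪ D ∪ E ∪ F := by
  simp only [Finset.mem_union]
  tauto

theorem card4 (a b d e : V) : ({a, b, d, e} : Finset V).card ≤ 5 := by
  have h1 := Finset.card_insert_le a ({b, d, e} : Finset V)
  have h2 := Finset.card_insert_le b ({d, e} : Finset V)
  have h3 := Finset.card_insert_le d ({e} : Finset V)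
  have h4 := Finset.card_singleton e
  omega

/-- CASE 5s: a good square slot exists -/
theorem case_s (hW : ST_DW) (hF : Fx G c) (hI : Inv G c H) (h5 : C5 G c H) (h12 : 12 ≤ (good G c H).card)
    {f x : V} (hL : LS G c H f x) (hs : SQ G c H f x) :
    ∃ H1 H', OpM G c H H1 ∧ OpV G c H1 H' ∧ Loss G c H H' 12 5 := by
  obtain ⟨g, b, v, v', w, w', hS, hg, hv⟩ := hs
  obtain ⟨dv, dv'⟩ := sq_dead hF h5 hL hg hS
  have hfL := ls_live hL
  have hru : v' ≠ f := by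
    intro e
    have h1 : Rm G c f g := by
      have h2 := (sv_rm hS.h2).symm
      rwa [e] at h2
    rw [← sv_mate hS.h1 h1] at hv
    exact fr_t1 hg.1 hv.1
  have hrH : v' ∉ H := hg.2.2 v' (sv_rm hS.h2).1
  have hbn : ∀ z, tS G c z → G.Adj b z → z = f ∨ z = g := by
    intro z hz e
    rcases (hS.hb.n3.nb z).1 e with h1 | h1 | h1
    · exact Or.inl h1
    · exact Or.inr h1
    · rw [h1] at hz
      exact absurd hz (fun h2 => b_s hS.tw2 h2)
  have hxn : ∀ z, tS G c z → G.Adj x z → z = f ∨ z = g := by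
    intro z hz e
    rcases (hS.ha.n3.nb z).1 e with h1 | h1 | h1
    · exact Or.inl h1
    · exact Or.inr h1
    · rw [h1] at hz
      exact absurd hz (fun h2 => b_s hS.tw1 h2)
  have hbT : ∀ z, z ∈ T1 G c → ¬ G.Adj b z := by
    intro z hz e
    rcases hbn z (t1_tS hz) e with h1 | h1
    · rw [h1] at hz
      exact fr_t1 hL.1 hz
    · rw [h1] at hz
      exact fr_t1 hg.1 hz
  obtain ⟨Lf, hLf1, hLf2⟩ := two_f (H := H) hF f
  obtain ⟨Lg, hLg1, hLg2⟩ := two_f (H := H) hF g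
  obtain ⟨f', y', hmem, hout⟩ := ex_out (s := good G c H) (L := Lf ∪ Lg) (by
    have := Finset.card_union_le Lf Lg
    omega)
  rw [mem_good] at hmem
  have hG' : GS G c H f' y' := hmem
  have hL' := hG'.1
  rw [Finset.mem_union] at hout
  have nf : f' ≠ f := by
    intro e
    rw [e] at hL' hout
    exact hout (Or.inl (hLf2 y' hL'))
  have ng : f' ≠ g := by
    intro e
    rw [e] at hL' hout
    exact hout (Or.inr (hLg2 y' hL'))
  have hk : ∀ t2, Avl G c H t2 → ¬ Clr G (H ∪ {f, b, w, x, g, v'}) t2 → t2 = v ∨ t2 = v' := by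
    intro t2 h2 hn
    rcases k1_S hF hS.h1 (av_swap hS.ha) hS.ta hS.tb hS.tw1 hS.h2 (t1_tS h2.1) (nclr h2.2 hn) with
      h3 | h3 | h3 | h3 | h3
    · rw [h3] at h2
      exact absurd h2.1 (fun h4 => fr_t1 hL.1 h4)
    · exact Or.inl h3
    · rw [h3] at h2
      exact absurd h2.1 (fun h4 => fr_t1 hg.1 h4)
    · exact Or.inr h3
    · exact absurd h3 (hbT t2 h2.1)
  obtain ⟨t2, h2, hc2⟩ : ∃ t2, Avl G c H t2 ∧ Clr G (H ∪ {f, b, w, x, g, v'}) t2 := by
    rcases cl5 hF h5 hG' with ⟨t2, e, hne, h2⟩ | ⟨g', b', v0, v0', w0, w0', hS', hg', hv0⟩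
    · refine ⟨t2, h2, ?_⟩
      by_contra hn
      rcases hk t2 h2 hn with h3 | h3
      · rw [h3] at h2 e hne
        exact mate_dead hF h5 hL' e hne h2 (sv_rm hS.h1).symm hfL
      · rw [h3] at h2 e hne
        exact mate_dead hF h5 hL' e hne h2 (sv_rm hS.h2).symm hg
    · refine ⟨v0, hv0, ?_⟩
      by_contra hn
      have hm := (sv_rm hS'.h1).symm
      rcases hk v0 hv0 hn with h3 | h3
      · rw [h3] at hm
        exact nf (rm_u hF hm (sv_rm hS.h1).symm)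
      · rw [h3] at hm
        exact ng (rm_u hF hm (sv_rm hS.h2).symm)
  obtain ⟨r2, a2, p, hS2, hA2, hp⟩ := t1_data' hF h2.1
  obtain ⟨p', hpp⟩ := exists_mate hp.2
  have hp' := rm_tQ hF hp hpp
  obtain ⟨LW, hW1, hW2⟩ := hW V G c H hF f v x w hL (sv_rm hS.h1) ((hS.ha.n3.nb w).2 (Or.inr (Or.inr rfl)))
    hS.ha.n3.xz.symm (fun y hy => absurd hy (mu_zero hS.tw1.2 y))
  obtain ⟨Lr, hLr1, hLr2⟩ := two_f (H := H) hF r2
  obtain ⟨LC, hC1, hC2⟩ := lstC (H := H) hF hA2 hS2 h2.1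
  obtain ⟨L3, h31, h32⟩ := lst3 hF h5 hp'
  obtain ⟨z, hz⟩ := one_a hF hA2 (t1_tS h2.1) (sv_a hS2)
  refine fin5 hF hI hS.h1 (av_swap hS.ha) hS.ta hS.tb hS.tw1 hS.h2 hL.2.2.2.1 hL.2.2.2.2 hru hrH hS2 hA2 hp hpp
    hc2 (Lf ∪ Lg ∪ LW ∪ Lr ∪ LC ∪ L3) (card6 _ _ _ _ _ _ hLf1 hLg1 hW1 hLr1 hC1 h31 le_rfl) ?_ {f, g, r2, z}
    (card4 _ _ _ _) ?_
  · intro f0 y0 h0 h0'
    apply mem6
    have hL0 := h0.1
    have hlv := ls_live hL0
    have key : f0 = f ∨ f0 = g → (f0, y0) ∈ Lf ∨ (f0, y0) ∈ Lg ∨ (f0, y0) ∈ LW ∨ (f0, y0) ∈ Lr ∨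
        (f0, y0) ∈ LC ∨ (f0, y0) ∈ L3 := by
      rintro (e | e)
      · rw [e] at hL0 ⊢
        exact Or.inl (hLf2 y0 hL0)
      · rw [e] at hL0 ⊢
        exact Or.inr (Or.inl (hLg2 y0 hL0))
    have keyr : f0 = r2 → (f0, y0) ∈ Lf ∨ (f0, y0) ∈ Lg ∨ (f0, y0) ∈ LW ∨ (f0, y0) ∈ Lr ∨
        (f0, y0) ∈ LC ∨ (f0, y0) ∈ L3 := by
      intro e
      rw [e] at hL0 ⊢
      exact Or.inr (Or.inr (Or.inr (Or.inl (hLr2 y0 hL0))))
    have keyC : (G.Adj f0 a2 ∨ ∃ v3, Rm G c f0 v3 ∧ Avl G c H v3 ∧ G.Adj v3 a2) →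
        (f0, y0) ∈ Lf ∨ (f0, y0) ∈ Lg ∨ (f0, y0) ∈ LW ∨ (f0, y0) ∈ Lr ∨ (f0, y0) ∈ LC ∨ (f0, y0) ∈ L3 := by
      intro e
      rcases hC2 f0 y0 hL0 e with h3 | h3
      · exact Or.inr (Or.inr (Or.inr (Or.inr (Or.inl h3))))
      · exact keyr h3
    rcases lost hF h5 hS.h1 (av_swap hS.ha) hS.ta hS.tb hS.tw1 hS.h2 hS2 hA2 hp hpp h0 h0' with
      h3 | h3 | ⟨t3, h3, h4, h6, h7⟩ | ⟨v3, h3, h4, h6, h7⟩
    · rcases h3 with e | e | e | e | e | e | e | e | e | e
      · exact key (Or.inl e)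
      · rw [e] at hlv
        exact absurd hlv dv
      · exact key (Or.inr e)
      · rw [e] at hlv
        exact absurd hlv dv'
      · exact key (hbn f0 (fr_tS hL0.1) e)
      · apply key
        apply hxn f0 (fr_tS hL0.1)
        rw [← e]
        exact hL0.2.2.1.symm
      · apply key
        apply hbn f0 (fr_tS hL0.1)
        rw [← e]
        exact hL0.2.2.1.symm
      · apply key
        apply hbn f0 (fr_tS hL0.1)
        rw [← e]
        exact hL0.2.2.1.symm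
      · by_cases e1 : y0 = x
        · apply key
          apply hxn f0 (fr_tS hL0.1)
          rw [← e1]
          exact hL0.2.2.1.symm
        by_cases e2 : f0 = f
        · exact key (Or.inl e2)
        by_cases e3 : f0 = v
        · rw [e3] at hlv
          exact absurd hlv dv
        · exact Or.inr (Or.inr (Or.inl (hW2 f0 y0 hL0 e e1 e2 e3)))
      · exfalso
        have hne : v' ≠ f0 := by
          intro e4
          rw [← e4] at hlv
          exact dv' hlv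
        rcases adjA_cases hF (sv_tSm hF.mu1 hS.h2) hL0.2.1 e.symm with h4 | h4
        · exact dv' (deadF hF hL0 e hne h4 (sv_rm hS.h2).symm hg.2.1)
        · exact h5.n4 ⟨f0, y0, v', g, ⟨hL0, e, hne, h4, (sv_rm hS.h2).symm, hg.2.1⟩, hg⟩
    · rcases h3 with e | e
      · exact keyr e
      · exact keyC (Or.inl e)
    · rcases h7 with h7 | h7
      · exact absurd h7 (hbT t3 h3.1)
      · exact Or.inr (Or.inr (Or.inr (Or.inr (Or.inr (h32 f0 y0 hL0 (Or.inl ⟨t3, h3, h4, h6, h7⟩))))))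
    · rcases h7 with h7 | h7 | h7
      · exact absurd h7 (hbT v3 h4.1)
      · exact keyC (Or.inr ⟨v3, h3, h4, h7⟩)
      · exact Or.inr (Or.inr (Or.inr (Or.inr (Or.inr (h32 f0 y0 hL0 (Or.inr ⟨v3, h3, h4, h7⟩))))))
  · intro f0 h0 h0'
    simp only [Finset.mem_insert, Finset.mem_singleton]
    rcases lostf hF hS.h1 (av_swap hS.ha) hS.ta hS.tb hS.tw1 hS.h2 hS2 hA2 hp hpp h0 h0' with
      (e | e | e | e | e) | e | e
    · exact Or.inl e
    · rw [e] at h0
      exact absurd h0 dv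
    · exact Or.inr (Or.inl e)
    · rw [e] at h0
      exact absurd h0 dv'
    · rcases hbn f0 (fr_tS h0.1) e with h3 | h3
      · exact Or.inl h3
      · exact Or.inr (Or.inl h3)
    · exact Or.inr (Or.inr (Or.inl e))
    · rcases hz f0 (fr_tS h0.1) e with h3 | h3
      · rw [← h3] at h2
        exact absurd h2.1 (fun h4 => fr_t1 h0.1 h4)
      · exact Or.inr (Or.inr (Or.inr h3))

/-- CASE 5n: no good square slot -/
theorem case_n (hW : ST_DW) (hF : Fx G c) (hI : Inv G c H) (h5 : C5 G c H) (h12 : 12 ≤ (good G c H).card)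
    (hn : ∀ f x, GS G c H f x → ¬ SQ G c H f x) :
    ∃ H1 H', OpM G c H H1 ∧ OpV G c H1 H' ∧ Loss G c H H' 12 5 := by
  obtain ⟨u, a, hmem, -⟩ := ex_out (s := good G c H) (L := ∅) (by
    rw [Finset.card_empty]
    omega)
  rw [mem_good] at hmem
  have hG : GS G c H u a := hmem
  have hL := hG.1
  have hA := hL.2.1
  obtain ⟨t, et, htu, ht⟩ := (cl5 hF h5 hG).resolve_right (hn u a hG)
  obtain ⟨v, b, hu, hB⟩ := fr_data hF hL.1 hA hL.2.2.1
  obtain ⟨x, ha⟩ : ∃ x, Av G c a u x t := by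
    obtain ⟨y, z, h1⟩ := av_ex hF.reg hA hL.2.2.1.symm
    rcases (h1.n3.nb t).1 et with e | e | e
    · exact absurd e htu
    · rw [← e] at h1
      exact ⟨z, av_swap h1⟩
    · rw [← e] at h1
      exact ⟨y, h1⟩
  have hx : tB G c x := by
    have eax : G.Adj a x := (ha.n3.nb x).2 (Or.inr (Or.inl rfl))
    rcases tB_or_tS hF.mu1 (aF hA eax) with h1 | h1
    · exact h1
    · rcases hF.f2 a u t x hA (fr_tS hL.1) (t1_tS ht.1) h1 hL.2.2.1.symm et eax with h2 | h2 | h2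
      · exact absurd h2.symm htu
      · exact absurd h2 ha.n3.xy
      · exact absurd h2.symm ha.n3.yz
  obtain ⟨r, q, hSt, hq⟩ := t1_data hF ht.1 hA et.symm
  have hru : r ≠ u := by
    intro e
    have h1 := (sv_rm hSt).1
    rw [e] at h1
    exact hF.tf t u a h1 hL.2.2.1 et.symm
  have hrH : r ∉ H := ht.2.2 r (sv_rm hSt).1
  have dr : ¬ Live G c H r := mate_dead hF h5 hL et htu ht (sv_rm hSt)
  have han : ∀ z, z ∈ Fr G c → G.Adj a z → z = u := by
    intro z hz e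
    rcases (ha.n3.nb z).1 e with h1 | h1 | h1
    · exact h1
    · rw [h1] at hz
      exact absurd (fr_tS hz) (fun h2 => b_s hx h2)
    · rw [h1] at hz
      exact absurd ht.1 (fun h2 => fr_t1 hz h2)
  have hbn : ∀ z, z ∈ Fr G c → G.Adj b z → z = u := by
    intro z hz e
    by_contra hne
    obtain ⟨b', v0, v0', w, w', hS⟩ := hF.f3 b u z hB hL.1 hz (fun h => hne h.symm) (sv_b hu).symm e
    have h1 : b' = a ∨ b' = b := sv_true hu (sv_b hS.h1) hS.tb.1
    rcases h1 with h1 | h1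
    · have h2 := sv_b hS.h2
      rw [h1] at h2
      exact hne (han z hz h2.symm)
    · exact hS.h1.n3.yz h1.symm
  obtain ⟨Lu, hLu1, hLu2⟩ := two_f (H := H) hF u
  obtain ⟨Ev, hEv1, hEv2⟩ := one_t (H := H) hF v
  obtain ⟨Er, hEr1, hEr2⟩ := one_t (H := H) hF r
  obtain ⟨f', y', hmem, hout⟩ := ex_out (s := good G c H) (L := Lu ∪ Ev ∪ Er) (by
    have h1 := Finset.card_union_le (Lu ∪ Ev) Er
    have h2 := Finset.card_union_le Lu Ev
    omega)
  rw [mem_good] at hmem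
  have hG' : GS G c H f' y' := hmem
  have hL' := hG'.1
  rw [Finset.mem_union, Finset.mem_union] at hout
  have nu : f' ≠ u := by
    intro e
    rw [e] at hL' hout
    exact hout (Or.inl (Or.inl (hLu2 y' hL')))
  obtain ⟨t2, e2, hne2, h2⟩ := (cl5 hF h5 hG').resolve_right (hn f' y' hG')
  have hc2 : Clr G (H ∪ {u, b, x, a, t, r}) t2 := by
    by_contra hc
    rcases k1_S hF hu ha hA hB hx hSt (t1_tS h2.1) (nclr h2.2 hc) with h3 | h3 | h3 | h3 | h3
    · rw [h3] at h2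
      exact fr_t1 hL.1 h2.1
    · rw [h3] at h2 e2
      exact hout (Or.inl (Or.inr (hEv2 f' y' hL' h2.1 e2)))
    · rw [h3] at e2
      rcases sv_true hSt e2.symm hL'.2.1.1 with h4 | h4
      · rw [h4] at hL'
        exact nu (han f' hL'.1 hL'.2.2.1.symm)
      · rw [h4] at hL'
        exact a_q hL'.2.1 hq
    · rw [h3] at h2 e2
      exact hout (Or.inr (hEr2 f' y' hL' h2.1 e2))
    · have h4 : y' = b := t1_uA hF h2.1 hB hL'.2.1 h3.symm e2.symm
      rw [h4] at hL'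
      exact nu (hbn f' hL'.1 hL'.2.2.1.symm)
  obtain ⟨r2, a2, p, hS2, hA2, hp⟩ := t1_data' hF h2.1
  obtain ⟨p', hpp⟩ := exists_mate hp.2
  have hp' := rm_tQ hF hp hpp
  have dr2 : ¬ Live G c H r2 := mate_dead hF h5 hL' e2 hne2 h2 (sv_rm hS2)
  obtain ⟨LW, hW1, hW2⟩ := hW V G c H hF u v a x hL (sv_rm hu) ((ha.n3.nb x).2 (Or.inr (Or.inl rfl)))
    ha.n3.xy.symm (fun y hy => absurd hy (mu_zero hx.2 y))
  obtain ⟨Lv, hLv1, hLv2⟩ := two_f (H := H) hF v
  obtain ⟨LC, hC1, hC2⟩ := lstC (H := H) hF hA2 hS2 h2.1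
  obtain ⟨L3, h31, h32⟩ := lst3 hF h5 hp'
  obtain ⟨z, hz⟩ := one_a hF hA2 (t1_tS h2.1) (sv_a hS2)
  refine fin5 hF hI hu ha hA hB hx hSt hL.2.2.2.1 hL.2.2.2.2 hru hrH hS2 hA2 hp hpp
    hc2 (Lu ∪ Lv ∪ LW ∪ Er ∪ LC ∪ L3) (card6 _ _ _ _ _ _ hLu1 hLv1 hW1 hEr1 hC1 h31 (by norm_num)) ?_
    {u, v, r2, z} (card4 _ _ _ _) ?_
  · intro f0 y0 h0 h0'
    apply mem6
    have hL0 := h0.1
    have hlv := ls_live hL0
    have key : f0 = u → (f0, y0) ∈ Lu ∨ (f0, y0) ∈ Lv ∨ (f0, y0) ∈ LW ∨ (f0, y0) ∈ Er ∨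
        (f0, y0) ∈ LC ∨ (f0, y0) ∈ L3 := by
      intro e
      rw [e] at hL0 ⊢
      exact Or.inl (hLu2 y0 hL0)
    have keyv : f0 = v → (f0, y0) ∈ Lu ∨ (f0, y0) ∈ Lv ∨ (f0, y0) ∈ LW ∨ (f0, y0) ∈ Er ∨
        (f0, y0) ∈ LC ∨ (f0, y0) ∈ L3 := by
      intro e
      rw [e] at hL0 ⊢
      exact Or.inr (Or.inl (hLv2 y0 hL0))
    have keyC : (G.Adj f0 a2 ∨ ∃ v3, Rm G c f0 v3 ∧ Avl G c H v3 ∧ G.Adj v3 a2) →
        (f0, y0) ∈ Lu ∨ (f0, y0) ∈ Lv ∨ (f0, y0) ∈ LW ∨ (f0, y0) ∈ Er ∨ (f0, y0) ∈ LC ∨ (f0, y0) ∈ L3 := by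
      intro e
      rcases hC2 f0 y0 hL0 e with h3 | h3
      · exact Or.inr (Or.inr (Or.inr (Or.inr (Or.inl h3))))
      · rw [h3] at hlv
        exact absurd hlv dr2
    rcases lost hF h5 hu ha hA hB hx hSt hS2 hA2 hp hpp h0 h0' with
      h3 | h3 | ⟨t3, h3, h4, h6, h7⟩ | ⟨v3, h3, h4, h6, h7⟩
    · rcases h3 with e | e | e | e | e | e | e | e | e | e
      · exact key e
      · exact keyv e
      · rw [e] at hL0
        exact absurd ht.1 (fun h4 => fr_t1 hL0.1 h4)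
      · rw [e] at hlv
        exact absurd hlv dr
      · exact key (hbn f0 hL0.1 e)
      · apply key
        apply han f0 hL0.1
        rw [← e]
        exact hL0.2.2.1.symm
      · apply key
        apply hbn f0 hL0.1
        rw [← e]
        exact hL0.2.2.1.symm
      · rw [e] at hL0
        exact absurd hq (fun h4 => a_q hL0.2.1 h4)
      · by_cases e1 : y0 = a
        · apply key
          apply han f0 hL0.1
          rw [← e1]
          exact hL0.2.2.1.symm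
        by_cases e2 : f0 = u
        · exact key e2
        by_cases e3 : f0 = v
        · exact keyv e3
        · exact Or.inr (Or.inr (Or.inl (hW2 f0 y0 hL0 e e1 e2 e3)))
      · have hne : r ≠ f0 := by
          intro e4
          rw [← e4] at hlv
          exact dr hlv
        rcases adjA_cases hF (sv_tSm hF.mu1 hSt) hL0.2.1 e.symm with h4 | h4
        · exact absurd (deadF hF hL0 e hne h4 (sv_rm hSt).symm ht.2.1) dr
        · exact Or.inr (Or.inr (Or.inr (Or.inl (hEr2 f0 y0 hL0 h4 e))))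
    · rcases h3 with e | e
      · rw [e] at hlv
        exact absurd hlv dr2
      · exact keyC (Or.inl e)
    · rcases h7 with h7 | h7
      · have h8 : y0 = b := t1_uA hF h3.1 hB hL0.2.1 h7.symm h4.symm
        apply key
        apply hbn f0 hL0.1
        rw [← h8]
        exact hL0.2.2.1.symm
      · exact Or.inr (Or.inr (Or.inr (Or.inr (Or.inr (h32 f0 y0 hL0 (Or.inl ⟨t3, h3, h4, h6, h7⟩))))))
    · exact absurd h6 (hn f0 y0 h0)
  · intro f0 h0 h0'
    simp only [Finset.mem_insert, Finset.mem_singleton]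
    rcases lostf hF hu ha hA hB hx hSt hS2 hA2 hp hpp h0 h0' with
      (e | e | e | e | e) | e | e
    · exact Or.inl e
    · exact Or.inr (Or.inl e)
    · rw [e] at h0
      exact absurd ht.1 (fun h4 => fr_t1 h0.1 h4)
    · rw [e] at h0
      exact absurd h0 dr
    · exact Or.inl (hbn f0 h0.1 e)
    · exact Or.inr (Or.inr (Or.inl e))
    · rcases hz f0 (fr_tS h0.1) e with h3 | h3
      · rw [← h3] at h2
        exact absurd h2.1 (fun h4 => fr_t1 h0.1 h4)
      · exact Or.inr (Or.inr (Or.inr h3))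

end Pool.Agent.Helper81.MC.D5

namespace Pool.Agent.Helper81.MC

open Pool.Agent.Helper33.MC Pool.Agent.Helper81.MC.D5

/-- row D_C5, with row D_W as a hypothesis -/
theorem st_DC5' (hW : ST_DW) : ST_DC5 := by
  intro V _ _ G _ c H hF hI n1 _ n3 n4 h12
  have h5 : C5 G c H := ⟨n1, n3, n4⟩
  by_cases hs : ∃ f x, GS G c H f x ∧ SQ G c H f x
  · obtain ⟨f, x, hG, hs⟩ := hs
    exact case_s hW hF hI h5 h12 hG.1 hs
  · exact case_n hW hF hI h5 h12 (fun f x hG h => hs ⟨f, x, hG, h⟩)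

/-- row D_C5 -/
theorem st_DC5 : ST_DC5 := st_DC5' st_DW

end Pool.Agent.Helper81.MC
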