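import Pool.Agent.Helper27.MC.Base2
import Pool.Agent.Helper51.MC.NB
import Pool.Agent.Helper64.MC.Ops

/-!
MP_4042d8_co, row J2: the case `2 ≤ j`, girth at least 5, from the selection.
-/

set_option autoImplicit false
set_option linter.unusedSectionVars false
set_option linter.unusedSimpArgs false

namespace Pool.Agent.Helper81.MC

open Pool.Agent.Helper27.MC Pool.Agent.Helper51.MC Pool.Agent.Helper88.MC Pool.Agent.Helper64.MC

variable {V : Type} [Fintype V] [DecidableEq V] {G : SimpleGraph V} [DecidableRel G.Adj]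

theorem ter_eq (c : V → Bool) (X : Finset V) :
    Pool.Agent.Helper27.MC.ter G c X = Pool.Agent.Helper64.MC.ter G c X := by
  ext v
  unfold Pool.Agent.Helper27.MC.ter Pool.Agent.Helper64.MC.ter
  simp only [Finset.mem_filter, Finset.mem_univ, true_and]
  constructor
  · rintro (h | ⟨y, hy, h1, h2⟩)
    · exact ⟨v, h, Or.inl rfl⟩
    · exact ⟨y, hy, Or.inr ⟨h1, h2.symm⟩⟩
  · rintro ⟨x, hx, rfl | ⟨h1, h2⟩⟩
    · exact Or.inl hx
    · exact Or.inr ⟨x, hx, h1, h2.symm⟩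

/-- the neighbours of a `false` vertex with a mate -/
theorem nb_S (hreg : G.IsRegularOfDegree 3) {c : V → Bool} {u a : V} (hu : tS G c u) (ca : c a = true)
    (ha : G.Adj u a) : ∃ m b : V, c m = false ∧ c b = true ∧ a ≠ b ∧ (∀ w, G.Adj u w ↔ w = m ∨ w = a ∨ w = b) := by
  obtain ⟨h1, h2⟩ := hu
  obtain ⟨m, x, y, hmx, hmy, hxy, nb, cm, cx, cy⟩ := (NB V G hreg c u).1 h2
  rw [h1] at cm cx cy
  rcases (nb a).1 ha with rfl | rfl | rfl
  · rw [cm] at ca
    cases ca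
  · exact ⟨m, y, cm, cy, hxy, nb⟩
  · refine ⟨m, x, cm, cx, hxy.symm, fun w => (nb w).trans ?_⟩
    constructor
    · rintro (h | h | h)
      · exact Or.inl h
      · exact Or.inr (Or.inr h)
      · exact Or.inr (Or.inl h)
    · rintro (h | h | h)
      · exact Or.inl h
      · exact Or.inr (Or.inr h)
      · exact Or.inr (Or.inl h)

/-- the neighbours of a vertex, one of them given -/
theorem nb_one (hreg : G.IsRegularOfDegree 3) {a u : V} (h : G.Adj a u) : ∃ x y : V, x ≠ u ∧ y ≠ u ∧ x ≠ y ∧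
    (∀ w, G.Adj a w ↔ w = u ∨ w = x ∨ w = y) := by
  obtain ⟨x, y, z, hxy, hxz, hyz, nb⟩ := nb_three G hreg a
  rcases (nb u).1 h with rfl | rfl | rfl
  · exact ⟨y, z, hxy.symm, hxz.symm, hyz, nb⟩
  · exact ⟨x, z, hxy, hyz.symm, hxz, fun w => (nb w).trans (by tauto)⟩
  · exact ⟨x, y, hxz, hyz, hxy, fun w => (nb w).trans (by tauto)⟩

/-- two neighbours given -/
theorem nb_two (hreg : G.IsRegularOfDegree 3) {a u t : V} (h : G.Adj a u) (h' : G.Adj a t) (htu : t ≠ u) :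
    ∃ x : V, x ≠ u ∧ x ≠ t ∧ (∀ w, G.Adj a w ↔ w = u ∨ w = x ∨ w = t) := by
  obtain ⟨x, y, hx, hy, hxy, nb⟩ := nb_one hreg h
  rcases (nb t).1 h' with rfl | rfl | rfl
  · exact absurd rfl htu
  · exact ⟨y, hy, hxy.symm, fun w => (nb w).trans (by tauto)⟩
  · exact ⟨x, hx, hxy, nb⟩

/-- a slot -/
theorem slot_of (hreg : G.IsRegularOfDegree 3) {c : V → Bool} {u a x y : V} (h : IsSl G c u a)
    (nb : ∀ w, G.Adj a w ↔ w = u ∨ w = x ∨ w = y) (hxy : x ≠ y) (hxu : x ≠ u) (hyu : y ≠ u) :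
    ∃ m b : V, Slot G c u m a b x y := by
  obtain ⟨⟨hu, hf⟩, ⟨ca, ma⟩, hua⟩ := h
  obtain ⟨m, b, cm, cb, hab, nbu⟩ := nb_S hreg hu ca hua
  have hb := hf b ((nbu b).2 (Or.inr (Or.inr rfl))) cb
  exact ⟨m, b, ⟨hu.1, cm, ca, cb, ma, hb.2, hab, nbu, nb, hxy, hxu, hyu⟩⟩

/-- the operation of an `N`-slot -/
theorem opN (hreg : G.IsRegularOfDegree 3) {c : V → Bool} (hm : ∀ v, mu G c v ≤ 1) {u a : V} (h : Nsl G c u a) :
    OpC G c {u, a} (Pool.Agent.Helper64.MC.ter G c {u, a}) 0 false (pth 3) := by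
  obtain ⟨h1, h2⟩ := h
  obtain ⟨x, y, hx, hy, hxy, nb⟩ := nb_one hreg h1.2.2.symm
  obtain ⟨m, b, S⟩ := slot_of hreg h1 nb hxy hx hy
  have hxB := h2 x ((nb x).2 (Or.inr (Or.inl rfl))) hx
  have hyB := h2 y ((nb y).2 (Or.inr (Or.inr rfl))) hy
  exact L3 S hm (fun w hw => absurd hw (nomate hxB.2 w)) (fun w hw => absurd hw (nomate hyB.2 w))

/-- the mate of a `false` vertex -/
theorem mate_of {c : V → Bool} {v : V} (h : mu G c v = 1) : ∃ r, Rm G c v r := by
  unfold mu at h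
  obtain ⟨r, hr⟩ := Finset.card_eq_one.1 h
  have h1 : r ∈ Finset.univ.filter (fun w => G.Adj v w ∧ c w = c v) := by
    rw [hr]
    exact Finset.mem_singleton_self r
  rw [Finset.mem_filter] at h1
  exact ⟨r, h1.2⟩

/-- the operation of an `M`-slot -/
theorem opM (hreg : G.IsRegularOfDegree 3) (htri : NoTri G) {c : V → Bool} (hm : ∀ v, mu G c v ≤ 1) {u a t : V}
    (h : Msl G c u a t) : OpC G c {u, a} (Pool.Agent.Helper64.MC.ter G c {u, a}) 0 false (pth 4) := by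
  obtain ⟨h1, h2, h3, h4, h5⟩ := h
  obtain ⟨x, hx, hxt, nb⟩ := nb_two hreg h1.2.2.symm h2 h3
  obtain ⟨m, b, S⟩ := slot_of hreg h1 nb hxt hx h3
  have hxB := h5 x ((nb x).2 (Or.inr (Or.inl rfl))) hx hxt
  obtain ⟨r, hr⟩ := mate_of h4.1.2
  have hru : r ≠ u := by
    rintro rfl
    exact htri a t r h2 hr.1 h1.2.2.symm
  exact L4 S hm (fun w hw => absurd hw (nomate hxB.2 w)) hr hru

/-- the flip of a free vertex -/
theorem opU (hreg : G.IsRegularOfDegree 3) {c : V → Bool} (hm : ∀ v, mu G c v ≤ 1) {s : V} (h : Fr G c s) :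
    OpC G c {s} (Pool.Agent.Helper64.MC.ter G c {s}) 1 true (pth 3) := by
  obtain ⟨hs, hf⟩ := h
  obtain ⟨m, a, b, hma, hmb, hab, nb, cm, ca, cb⟩ := (NB V G hreg c s).1 hs.2
  rw [hs.1] at cm ca cb
  have hA := hf a ((nb a).2 (Or.inr (Or.inl rfl))) ca
  have hB := hf b ((nb b).2 (Or.inr (Or.inr rfl))) cb
  exact U3 hm hs.1 nb cm ca cb hab hA.2 hB.2

/-- the flip of a vertex of type `T1` -/
theorem opV (hreg : G.IsRegularOfDegree 3) {c : V → Bool} (hm : ∀ v, mu G c v ≤ 1) {t : V} (h : T1 G c t) :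
    OpC G c {t} (Pool.Agent.Helper64.MC.ter G c {t}) 1 true (pth 4) := by
  obtain ⟨ht, ⟨q, hq1, hq2⟩, ⟨a, ha1, ha2⟩⟩ := h
  obtain ⟨m, b, cm, cb, hab, nb⟩ := nb_S hreg ht ha2.1 ha1
  have hqb : q = b := by
    rcases (nb q).1 hq1 with rfl | rfl | h
    · rw [hq2.1] at cm
      cases cm
    · have h1 := hq2.2
      rw [ha2.2] at h1
      exact absurd h1 (by decide)
    · exact h
  subst hqb
  obtain ⟨r, hr⟩ := mate_of hq2.2
  exact U4 hm ht.1 nb cm ha2.1 cb hab ha2.2 hr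

/-- ROW J2 -/
theorem st_J2 (hS : ST_SEL) : ST_J2 := by
  intro V _ _ G _ hreg htri hsq c j hO hj
  obtain ⟨n, h, uN, aN, sU, uM, aM, tM, tV, hnh, hN, hU, hM, hV, hdis⟩ := hS V G hreg htri hsq c j hO hj
  subst hnh
  have hm := hO.mu1
  simp only [ter_eq] at hdis
  set XN : Fin n → Finset V := fun i => {uN i, aN i} ∪ {sU i} with hXN
  set XM : Fin h → Finset V := fun i => {uM i, aM i} ∪ {tV i} with hXM
  set TN : Fin n → Finset V := fun i => Pool.Agent.Helper64.MC.ter G c {uN i, aN i} ∪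
    Pool.Agent.Helper64.MC.ter G c {sU i} with hTN
  set TM : Fin h → Finset V := fun i => Pool.Agent.Helper64.MC.ter G c {uM i, aM i} ∪
    Pool.Agent.Helper64.MC.ter G c {tV i} with hTM
  have bN : ∀ i, Blk G c (XN i) (TN i) := fun i =>
    PAIR hm (opN hreg hm (hN i)) (opU hreg hm (hU i)) (hdis (Sum.inl (Sum.inl i)) (Sum.inl (Sum.inr i)) (by simp))
  have bM : ∀ i, Blk G c (XM i) (TM i) := fun i =>
    PAIR hm (opM hreg htri hm (hM i)) (opV hreg hm (hV i))
      (hdis (Sum.inr (Sum.inl i)) (Sum.inr (Sum.inr i)) (by simp))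
  have hdN : ∀ i k, i ≠ k → Disjoint (TN i) (TN k) := by
    intro i k hik
    rw [hTN]
    simp only [Finset.disjoint_union_left, Finset.disjoint_union_right]
    exact ⟨⟨hdis (Sum.inl (Sum.inl i)) (Sum.inl (Sum.inl k)) (by simpa using hik),
      hdis (Sum.inl (Sum.inr i)) (Sum.inl (Sum.inl k)) (by simp)⟩,
      hdis (Sum.inl (Sum.inl i)) (Sum.inl (Sum.inr k)) (by simp),
      hdis (Sum.inl (Sum.inr i)) (Sum.inl (Sum.inr k)) (by simpa using hik)⟩
  have hdM : ∀ i k, i ≠ k → Disjoint (TM i) (TM k) := by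
    intro i k hik
    rw [hTM]
    simp only [Finset.disjoint_union_left, Finset.disjoint_union_right]
    exact ⟨⟨hdis (Sum.inr (Sum.inl i)) (Sum.inr (Sum.inl k)) (by simpa using hik),
      hdis (Sum.inr (Sum.inr i)) (Sum.inr (Sum.inl k)) (by simp)⟩,
      hdis (Sum.inr (Sum.inl i)) (Sum.inr (Sum.inr k)) (by simp),
      hdis (Sum.inr (Sum.inr i)) (Sum.inr (Sum.inr k)) (by simpa using hik)⟩
  have hdNM : ∀ i k, Disjoint (TN i) (TM k) := by
    intro i k
    rw [hTN, hTM]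
    simp only [Finset.disjoint_union_left, Finset.disjoint_union_right]
    exact ⟨⟨hdis (Sum.inl (Sum.inl i)) (Sum.inr (Sum.inl k)) (by simp),
      hdis (Sum.inl (Sum.inr i)) (Sum.inr (Sum.inl k)) (by simp)⟩,
      hdis (Sum.inl (Sum.inl i)) (Sum.inr (Sum.inr k)) (by simp),
      hdis (Sum.inl (Sum.inr i)) (Sum.inr (Sum.inr k)) (by simp)⟩
  set e := (finSumFinEquiv (m := n) (n := h)).symm with he
  have hF := UNI2 (G := G) (j := n + h) (X := fun i => Sum.elim XN XM (e i)) (T := fun i => Sum.elim TN TM (e i)) hm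
    hO.imb2 (fun i => by
      rcases e i with k | k
      · exact bN k
      · exact bM k) (fun i k hik => by
      have hik' : e i ≠ e k := fun h => hik (e.injective h)
      rcases h1 : e i with a | a <;> rcases h2 : e k with b | b
      · simp only [h1, h2, Sum.elim_inl]
        exact hdN a b fun h3 => hik' (by rw [h1, h2, h3])
      · simp only [h1, h2, Sum.elim_inl, Sum.elim_inr]
        exact hdNM a b
      · simp only [h1, h2, Sum.elim_inl, Sum.elim_inr]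
        exact (hdNM b a).symm
      · simp only [h1, h2, Sum.elim_inr]
        exact hdM a b fun h3 => hik' (by rw [h1, h2, h3]))
  exact ISO2 hreg _ hF

end Pool.Agent.Helper81.MC
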